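import Pool.Agent.H75.AG.SWB

/-!
# MP_c59857_nt (absolute gap): row S5 of the board `gap_modules` (average over the shift)
-/

set_option autoImplicit false

open MeasureTheory ProbabilityTheory Filter Topology Finset
open scoped Nat ENNReal

namespace Pool.Agent.H75.AG

open Pool.Agent.H67.AG

section general

variable {Ω : Type} [mΩ : MeasurableSpace Ω] {P : Measure Ω} [IsProbabilityMeasure P]

theorem int_abs_le (h : Ω → ℝ) (δ : ℝ) (hδ : 0 < δ) (hi : Integrable h P)
    (hi2 : Integrable (fun ω => h ω ^ 2) P) :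
    ∫ ω, |h ω| ∂P ≤ δ / 2 + (∫ ω, h ω ^ 2 ∂P) / (2 * δ) := by
  have h1 : ∀ ω, |h ω| ≤ δ / 2 + h ω ^ 2 / (2 * δ) := by
    intro ω
    rw [← sub_nonneg]
    have h2 : δ / 2 + h ω ^ 2 / (2 * δ) - |h ω| = (|h ω| - δ) ^ 2 / (2 * δ) := by
      rw [← sq_abs (h ω)]
      field_simp
      ring
    rw [h2]
    positivity
  have h3 : ∫ ω, (δ / 2 + h ω ^ 2 / (2 * δ)) ∂P = δ / 2 + (∫ ω, h ω ^ 2 ∂P) / (2 * δ) := by
    rw [integral_add (integrable_const _) (hi2.div_const _), integral_const, integral_div]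
    simp
  rw [← h3]
  exact integral_mono hi.abs ((integrable_const _).add (hi2.div_const _)) h1

theorem key_ae (M : ℕ → Ω → ℝ) (Φ : Ω → ℝ) (c : ℝ) (hM : ∀ t, Measurable (M t))
    (hMi : ∀ t, Integrable (M t) P) (hΦm : Measurable Φ) (hΦ : Integrable Φ P)
    (h : ∀ ε : ℝ, 0 < ε → ∃ N : ℕ, 0 < N ∧
      ∫ ω, |(∑ t ∈ range N, M t ω) / N - Φ ω| ∂P ≤ ε) :
    ∀ᵐ ω ∂P, (∀ t, M t ω ≤ c) → Φ ω ≤ c := by
  set G : Set Ω := {ω | ∀ t, M t ω ≤ c} with hG
  have hGm : MeasurableSet G := by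
    have : G = ⋂ t, {ω | M t ω ≤ c} := by
      ext ω; simp [hG]
    rw [this]
    exact MeasurableSet.iInter fun t => measurableSet_le (hM t) measurable_const
  have hpm : Measurable fun ω => max (Φ ω - c) 0 := (hΦm.sub measurable_const).max measurable_const
  have hpi : Integrable (fun ω => max (Φ ω - c) 0) P := (hΦ.sub (integrable_const c)).pos_part
  have h0 : ∫ ω in G, max (Φ ω - c) 0 ∂P = 0 := by
    refine le_antisymm ?_ (setIntegral_nonneg hGm fun ω _ => le_max_right _ _)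
    refine le_of_forall_pos_le_add fun ε hε => ?_
    obtain ⟨N, hN, hNε⟩ := h ε hε
    rw [zero_add]
    refine le_trans ?_ hNε
    have hint : Integrable (fun ω => |(∑ t ∈ range N, M t ω) / N - Φ ω|) P :=
      (((integrable_finsetSum _ fun t _ => hMi t).div_const _).sub hΦ).abs
    calc ∫ ω in G, max (Φ ω - c) 0 ∂P
        ≤ ∫ ω in G, |(∑ t ∈ range N, M t ω) / N - Φ ω| ∂P := by
          refine setIntegral_mono_on hpi.integrableOn hint.integrableOn hGm fun ω hω => ?_
          have h1 : (∑ t ∈ range N, M t ω) / N ≤ c := by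
            have hN' : (0 : ℝ) < N := by exact_mod_cast hN
            rw [div_le_iff₀ hN']
            calc ∑ t ∈ range N, M t ω ≤ ∑ t ∈ range N, c := Finset.sum_le_sum fun t _ => hω t
              _ = c * N := by rw [Finset.sum_const, card_range, nsmul_eq_mul, mul_comm]
          refine max_le ?_ (abs_nonneg _)
          have := neg_abs_le ((∑ t ∈ range N, M t ω) / N - Φ ω)
          linarith
      _ ≤ ∫ ω, |(∑ t ∈ range N, M t ω) / N - Φ ω| ∂P :=
          setIntegral_le_integral hint (Eventually.of_forall fun ω => abs_nonneg _)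
  have h1 := (setIntegral_eq_zero_iff_of_nonneg_ae (Eventually.of_forall fun ω => le_max_right _ _)
    hpi.integrableOn).1 h0
  have h2 := (ae_restrict_iff' hGm).1 h1
  filter_upwards [h2] with ω hω hωG
  have h3 := hω hωG
  simp only [Pi.zero_apply] at h3
  have := le_max_left (Φ ω - c) 0
  linarith

end general

section s5

variable {d : Sw} (e : SwE d)

/-- the conditional probability of the selection of `b` -/
noncomputable def qq (b : Fin d.n) : e.Ω → ℝ := e.P[sel e b | Inv e.T d.W]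

theorem invle : Inv e.T d.W ≤ (inferInstance : MeasurableSpace e.Ω) :=
  MeasurableSpace.invariants_le _

theorem sel_int (b : Fin d.n) : Integrable (sel e b) e.P :=
  integrable_bdd (sel_meas e b) 1 (sel_abs e b)

theorem qq_sm (b : Fin d.n) : StronglyMeasurable[Inv e.T d.W] (qq e b) :=
  stronglyMeasurable_condExp

theorem qq_meas (b : Fin d.n) : Measurable (qq e b) :=
  ((qq_sm e b).mono (invle e)).measurable

theorem qq_nn (b : Fin d.n) : ∀ᵐ ω ∂e.P, 0 ≤ qq e b ω :=
  condExp_nonneg (Eventually.of_forall fun ω => sel_nn e b ω)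

theorem qq_abs (b : Fin d.n) : ∀ᵐ ω ∂e.P, |qq e b ω| ≤ 1 := by
  exact ae_bdd_abs_condExp_of_ae_bdd_abs (R := (1 : ℝ))
    (Eventually.of_forall fun ω => sel_abs e b ω)

theorem qq_sum : ∀ᵐ ω ∂e.P, ∑ b, qq e b ω = 1 := by
  have h1 := condExp_finsetSum (s := Finset.univ) (f := fun b => sel e b) (μ := e.P)
    (fun b _ => sel_int e b) (Inv e.T d.W)
  have h2 : (∑ b, sel e b) = fun _ : e.Ω => (1 : ℝ) := by
    funext ω
    rw [Finset.sum_apply]
    exact sum_sel e ω
  rw [h2, condExp_const (invle e)] at h1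
  filter_upwards [h1] with ω hω
  rw [Finset.sum_apply] at hω
  exact hω.symm

theorem dl_int (y y' : Fin d.k → e.Ω → ℝ) (hy : Tup y) (hy' : Tup y') (i : Fin d.k) :
    Integrable (dl y y' i) e.P :=
  integrable_bdd (dl_meas y y' hy hy' i) 1 fun ω => by
    rw [abs_of_nonneg (dl_nn y y' i ω)]; exact dl_le y y' i ω

theorem dl_yt (t : ℕ) (i : Fin d.k) (ω : e.Ω) :
    dl e.ys (e.yt t) i ω = ∑ b, sel e b (e.T^[d.W * t] ω) * dl e.ys (e.yb b) i ω := by
  have h : ∀ b, sel e b (e.T^[d.W * t] ω) * dl e.ys (e.yb b) i ω =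
      if e.s (e.T^[d.W * t] ω) = b then dl e.ys (e.yb b) i ω else 0 := by
    intro b
    unfold sel
    split_ifs <;> ring
  rw [Finset.sum_congr rfl fun b _ => h b, Finset.sum_ite_eq, if_pos (Finset.mem_univ _)]
  rfl

/-- the average of the mismatches over the shift -/
noncomputable def FN (N : ℕ) (i : Fin d.k) (ω : e.Ω) : ℝ :=
  ∑ b, Av e.T d.W N (sel e b) ω * dl e.ys (e.yb b) i ω

/-- its limit -/
noncomputable def GLim (i : Fin d.k) (ω : e.Ω) : ℝ := ∑ b, qq e b ω * dl e.ys (e.yb b) i ω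

theorem FN_eq (N : ℕ) (i : Fin d.k) (ω : e.Ω) :
    FN e N i ω = (∑ t ∈ range N, dl e.ys (e.yt t) i ω) / N := by
  unfold FN Av
  rw [Finset.sum_congr rfl fun t (_ : t ∈ range N) => dl_yt e t i ω, Finset.sum_comm,
    Finset.sum_div]
  refine Finset.sum_congr rfl fun b _ => ?_
  rw [← Finset.sum_mul]
  ring

theorem Av_meas {Ω : Type} [MeasurableSpace Ω] (T : Ω ≃ᵐ Ω) (W n : ℕ) (f : Ω → ℝ)
    (hf : Measurable f) : Measurable (Av T W n f) := by
  unfold Av
  refine Measurable.div_const (Finset.measurable_fun_sum _ fun l _ => hf.comp ?_) _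
  exact T.measurable.iterate _

theorem Av_abs {Ω : Type} [MeasurableSpace Ω] (T : Ω ≃ᵐ Ω) (W n : ℕ) (f : Ω → ℝ)
    (hf : ∀ ω, |f ω| ≤ 1) (ω : Ω) : |Av T W n f ω| ≤ 1 := by
  unfold Av
  rw [abs_div, Nat.abs_cast]
  refine div_le_one_of_le₀ ?_ (Nat.cast_nonneg _)
  refine (Finset.abs_sum_le_sum_abs _ _).trans ?_
  calc ∑ l ∈ range n, |f (T^[W * l] ω)| ≤ ∑ l ∈ range n, (1 : ℝ) :=
        Finset.sum_le_sum fun l _ => hf _
    _ = n := by rw [Finset.sum_const, card_range, nsmul_eq_mul, mul_one]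

theorem close_sel (hme : T_ME) (ε : ℝ) (hε : 0 < ε) : ∃ N : ℕ, 0 < N ∧
    ∀ b, ∫ ω, |Av e.T d.W N (sel e b) ω - qq e b ω| ∂e.P ≤ ε := by
  have h1 : ∀ b, ∀ᶠ N : ℕ in atTop,
      ∫ ω, (Av e.T d.W N (sel e b) ω - qq e b ω) ^ 2 ∂e.P < ε ^ 2 := fun b =>
    (hme e.Ω e.P e.T d.W (sel e b) e.mp (sel_meas e b) (sel_abs e b)).eventually_lt_const
      (by positivity)
  have h2 : ∀ᶠ N : ℕ in atTop, ∀ b,
      ∫ ω, (Av e.T d.W N (sel e b) ω - qq e b ω) ^ 2 ∂e.P < ε ^ 2 :=
    Filter.eventually_all.2 h1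
  obtain ⟨N, hN, hN1⟩ := (h2.and (eventually_ge_atTop 1)).exists
  refine ⟨N, hN1, fun b => ?_⟩
  have hm : Measurable fun ω => Av e.T d.W N (sel e b) ω - qq e b ω :=
    (Av_meas e.T d.W N _ (sel_meas e b)).sub (qq_meas e b)
  have hb : ∀ᵐ ω ∂e.P, ‖Av e.T d.W N (sel e b) ω - qq e b ω‖ ≤ 2 := by
    filter_upwards [qq_abs e b] with ω hω
    rw [Real.norm_eq_abs]
    have h3 := Av_abs e.T d.W N _ (sel_abs e b) ω
    calc |Av e.T d.W N (sel e b) ω - qq e b ω| ≤ |Av e.T d.W N (sel e b) ω| + |qq e b ω| :=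
          abs_sub _ _
      _ ≤ 2 := by linarith
  have hi : Integrable (fun ω => Av e.T d.W N (sel e b) ω - qq e b ω) e.P :=
    Integrable.of_bound hm.aestronglyMeasurable 2 hb
  have hi2 : Integrable (fun ω => (Av e.T d.W N (sel e b) ω - qq e b ω) ^ 2) e.P := by
    refine Integrable.of_bound (hm.pow_const 2).aestronglyMeasurable 4 ?_
    filter_upwards [hb] with ω hω
    rw [norm_pow]
    nlinarith [norm_nonneg (Av e.T d.W N (sel e b) ω - qq e b ω)]
  refine (int_abs_le _ ε hε hi hi2).trans ?_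
  have h4 : (∫ ω, (Av e.T d.W N (sel e b) ω - qq e b ω) ^ 2 ∂e.P) / (2 * ε) ≤ ε / 2 := by
    rw [div_le_iff₀ (by positivity)]
    have := (hN b).le
    nlinarith
  linarith

theorem FN_int (N : ℕ) (i : Fin d.k) : Integrable (FN e N i) e.P := by
  have h : FN e N i = fun ω => (∑ t ∈ range N, dl e.ys (e.yt t) i ω) / N :=
    funext fun ω => FN_eq e N i ω
  rw [h]
  exact (integrable_finsetSum _ fun t _ => dl_int e _ _ (tup_ys e) (tup_yt e t) i).div_const _

theorem term_int (b : Fin d.n) (i : Fin d.k) :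
    Integrable (fun ω => qq e b ω * dl e.ys (e.yb b) i ω) e.P := by
  refine Integrable.of_bound ((qq_meas e b).mul
    (dl_meas _ _ (tup_ys e) (tup_yb e b) i)).aestronglyMeasurable 1 ?_
  filter_upwards [qq_abs e b] with ω hω
  rw [norm_mul, Real.norm_eq_abs, Real.norm_eq_abs, abs_of_nonneg (dl_nn _ _ i ω)]
  exact mul_le_one₀ hω (dl_nn _ _ i ω) (dl_le _ _ i ω)

theorem GLim_int (i : Fin d.k) : Integrable (GLim e i) e.P :=
  integrable_finsetSum _ fun b _ => term_int e b i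

theorem FN_GLim (N : ℕ) (i : Fin d.k) (ε : ℝ)
    (h : ∀ b, ∫ ω, |Av e.T d.W N (sel e b) ω - qq e b ω| ∂e.P ≤ ε) :
    ∫ ω, |FN e N i ω - GLim e i ω| ∂e.P ≤ d.n * ε := by
  have hI : ∀ b, Integrable (fun ω => |Av e.T d.W N (sel e b) ω - qq e b ω|) e.P := by
    intro b
    refine ((integrable_bdd (Av_meas e.T d.W N _ (sel_meas e b)) 1
      (Av_abs e.T d.W N _ (sel_abs e b))).sub ?_).abs
    exact integrable_condExp
  calc ∫ ω, |FN e N i ω - GLim e i ω| ∂e.P
      ≤ ∫ ω, ∑ b, |Av e.T d.W N (sel e b) ω - qq e b ω| ∂e.P := by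
        refine integral_mono ((FN_int e N i).sub (GLim_int e i)).abs
          (integrable_finsetSum _ fun b _ => hI b) fun ω => ?_
        simp only
        have h1 : FN e N i ω - GLim e i ω =
            ∑ b, (Av e.T d.W N (sel e b) ω - qq e b ω) * dl e.ys (e.yb b) i ω := by
          unfold FN GLim
          rw [← Finset.sum_sub_distrib]
          exact Finset.sum_congr rfl fun b _ => by ring
        rw [h1]
        refine (Finset.abs_sum_le_sum_abs _ _).trans (Finset.sum_le_sum fun b _ => ?_)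
        rw [abs_mul, abs_of_nonneg (dl_nn _ _ i ω)]
        exact mul_le_of_le_one_right (abs_nonneg _) (dl_le _ _ i ω)
    _ = ∑ b, ∫ ω, |Av e.T d.W N (sel e b) ω - qq e b ω| ∂e.P :=
        integral_finsetSum _ fun b _ => hI b
    _ ≤ ∑ _b : Fin d.n, ε := Finset.sum_le_sum fun b _ => h b
    _ = d.n * ε := by rw [Finset.sum_const, card_univ, Fintype.card_fin, nsmul_eq_mul]

/-- the limit of the averages of the conditional mismatches -/
noncomputable def PhiL (ω : e.Ω) : ℝ :=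
  ∑ b, qq e b ω * Mis e.P (Inv e.T d.W) e.ys (e.yb b) ω

theorem Mis_meas (y y' : Fin d.k → e.Ω → ℝ) :
    Measurable (Mis e.P (Inv e.T d.W) y y') := by
  unfold Mis
  exact Finset.measurable_fun_sum _ fun i _ =>
    (stronglyMeasurable_condExp.mono (invle e)).measurable

theorem Mis_int (y y' : Fin d.k → e.Ω → ℝ) :
    Integrable (Mis e.P (Inv e.T d.W) y y') e.P := by
  unfold Mis
  exact integrable_finsetSum _ fun i _ => integrable_condExp

theorem PhiL_meas : Measurable (PhiL e) := by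
  unfold PhiL
  exact Finset.measurable_fun_sum _ fun b _ => (qq_meas e b).mul (Mis_meas e _ _)

theorem PhiL_int : Integrable (PhiL e) e.P := by
  unfold PhiL
  refine integrable_finsetSum _ fun b _ => ?_
  exact (Mis_int e _ _).bdd_mul (qq_meas e b).aestronglyMeasurable (c := 1) (by
    filter_upwards [qq_abs e b] with ω hω
    rwa [Real.norm_eq_abs])

theorem condFN (N : ℕ) : (fun ω => (∑ t ∈ range N,
    Mis e.P (Inv e.T d.W) e.ys (e.yt t) ω) / N) =ᵐ[e.P]
    fun ω => ∑ i, (e.P[FN e N i | Inv e.T d.W]) ω := by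
  have h1 : ∀ i, (e.P[FN e N i | Inv e.T d.W]) =ᵐ[e.P]
      fun ω => (∑ t ∈ range N, (e.P[dl e.ys (e.yt t) i | Inv e.T d.W]) ω) / N := by
    intro i
    have h2 : FN e N i = (N : ℝ)⁻¹ • ∑ t ∈ range N, dl e.ys (e.yt t) i := by
      funext ω
      rw [FN_eq, Pi.smul_apply, Finset.sum_apply, smul_eq_mul, div_eq_inv_mul]
    rw [h2]
    have h3 := condExp_smul (μ := e.P) (N : ℝ)⁻¹ (∑ t ∈ range N, dl e.ys (e.yt t) i)
      (Inv e.T d.W)
    have h4 := condExp_finsetSum (s := range N) (f := fun t => dl e.ys (e.yt t) i) (μ := e.P)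
      (fun t _ => dl_int e _ _ (tup_ys e) (tup_yt e t) i) (Inv e.T d.W)
    filter_upwards [h3, h4] with ω h3 h4
    rw [h3, Pi.smul_apply, h4, Finset.sum_apply, smul_eq_mul, div_eq_inv_mul]
  have h5 := Filter.eventually_all.2 h1
  filter_upwards [h5] with ω hω
  rw [Finset.sum_congr rfl fun i _ => hω i]
  unfold Mis
  rw [Finset.sum_comm, Finset.sum_div]

theorem condGL : (PhiL e) =ᵐ[e.P] fun ω => ∑ i, (e.P[GLim e i | Inv e.T d.W]) ω := by
  have h1 : ∀ i, (e.P[GLim e i | Inv e.T d.W]) =ᵐ[e.P]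
      fun ω => ∑ b, qq e b ω * (e.P[dl e.ys (e.yb b) i | Inv e.T d.W]) ω := by
    intro i
    have h2 : GLim e i = ∑ b, (qq e b * dl e.ys (e.yb b) i) := by
      funext ω
      rw [Finset.sum_apply]
      rfl
    rw [h2]
    have h4 := condExp_finsetSum (s := Finset.univ) (f := fun b => qq e b * dl e.ys (e.yb b) i)
      (μ := e.P) (fun b _ => term_int e b i) (Inv e.T d.W)
    have h5 : ∀ b, (e.P[qq e b * dl e.ys (e.yb b) i | Inv e.T d.W]) =ᵐ[e.P]
        qq e b * e.P[dl e.ys (e.yb b) i | Inv e.T d.W] := fun b =>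
      condExp_mul_of_stronglyMeasurable_left (qq_sm e b) (term_int e b i)
        (dl_int e _ _ (tup_ys e) (tup_yb e b) i)
    have h6 := Filter.eventually_all.2 h5
    filter_upwards [h4, h6] with ω h4 h6
    rw [h4, Finset.sum_apply]
    exact Finset.sum_congr rfl fun b _ => h6 b
  have h5 := Filter.eventually_all.2 h1
  filter_upwards [h5] with ω hω
  rw [Finset.sum_congr rfl fun i _ => hω i]
  unfold PhiL Mis
  rw [Finset.sum_comm]
  exact Finset.sum_congr rfl fun b _ => Finset.mul_sum _ _ _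

theorem close_Phi (hme : T_ME) (ε : ℝ) (hε : 0 < ε) : ∃ N : ℕ, 0 < N ∧
    ∫ ω, |(∑ t ∈ range N, Mis e.P (Inv e.T d.W) e.ys (e.yt t) ω) / N - PhiL e ω| ∂e.P ≤ ε := by
  have hpos : (0 : ℝ) < d.k * d.n + 1 := by positivity
  obtain ⟨N, hN, hb⟩ := close_sel e hme (ε / (d.k * d.n + 1)) (by positivity)
  refine ⟨N, hN, ?_⟩
  have h1 : ∀ i, (e.P[FN e N i - GLim e i | Inv e.T d.W]) =ᵐ[e.P]
      e.P[FN e N i | Inv e.T d.W] - e.P[GLim e i | Inv e.T d.W] := fun i =>
    condExp_sub (FN_int e N i) (GLim_int e i) _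
  have h1' := Filter.eventually_all.2 h1
  calc ∫ ω, |(∑ t ∈ range N, Mis e.P (Inv e.T d.W) e.ys (e.yt t) ω) / N - PhiL e ω| ∂e.P
      ≤ ∫ ω, ∑ i, |(e.P[FN e N i - GLim e i | Inv e.T d.W]) ω| ∂e.P := by
        refine integral_mono_ae (((integrable_finsetSum _ fun t _ =>
          Mis_int e _ _).div_const _).sub (PhiL_int e)).abs
          (integrable_finsetSum _ fun i _ => integrable_condExp.abs) ?_
        filter_upwards [condFN e N, condGL e, h1'] with ω h2 h3 h4
        rw [h2, h3, ← Finset.sum_sub_distrib]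
        refine (Finset.abs_sum_le_sum_abs _ _).trans (Finset.sum_le_sum fun i _ => ?_)
        rw [h4 i]
        rfl
    _ = ∑ i, ∫ ω, |(e.P[FN e N i - GLim e i | Inv e.T d.W]) ω| ∂e.P :=
        integral_finsetSum _ fun i _ => integrable_condExp.abs
    _ ≤ ∑ i, ∫ ω, |FN e N i ω - GLim e i ω| ∂e.P :=
        Finset.sum_le_sum fun i _ => integral_abs_condExp_le _
    _ ≤ ∑ _i : Fin d.k, d.n * (ε / (d.k * d.n + 1)) :=
        Finset.sum_le_sum fun i _ => FN_GLim e N i _ hb
    _ = d.k * d.n * ε / (d.k * d.n + 1) := by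
        rw [Finset.sum_const, card_univ, Fintype.card_fin, nsmul_eq_mul]
        ring
    _ ≤ ε := by
        rw [div_le_iff₀ hpos]
        nlinarith

end s5

theorem pf_S5 (hme : T_ME) : T_S5 := by
  intro d e
  have h1 := key_ae (P := e.P) (fun t => Mis e.P (Inv e.T d.W) e.ys (e.yt t)) (PhiL e)
    (113 / 1000) (fun t => Mis_meas e _ _) (fun t => Mis_int e _ _) (PhiL_meas e) (PhiL_int e)
    (fun ε hε => close_Phi e hme ε hε)
  have h2 := Filter.eventually_all.2 (qq_nn e)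
  filter_upwards [h1, h2, qq_sum e] with ω h1 h2 h3 h4
  have h5 := h1 h4
  by_contra hcon
  push Not at hcon
  have h6 : (113 / 1000 : ℝ) < PhiL e ω := by
    obtain ⟨b₀, _, hb₀⟩ : ∃ b ∈ (Finset.univ : Finset (Fin d.n)), 0 < qq e b ω := by
      by_contra hno
      push Not at hno
      have : ∑ b, qq e b ω ≤ 0 := Finset.sum_nonpos fun b hb => hno b hb
      linarith
    calc (113 / 1000 : ℝ) = ∑ b, qq e b ω * (113 / 1000) := by
          rw [← Finset.sum_mul, h3, one_mul]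
      _ < PhiL e ω := by
          unfold PhiL
          refine Finset.sum_lt_sum (fun b _ => mul_le_mul_of_nonneg_left (hcon b).le (h2 b))
            ⟨b₀, Finset.mem_univ _, mul_lt_mul_of_pos_left (hcon b₀) hb₀⟩
  linarith

end Pool.Agent.H75.AG
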