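import Pool.Agent.H75.AG.S5
import Pool.Agent.H67.AG.T3

/-!
# MP_c59857_nt (absolute gap): row S6 of the board `gap_modules` (the parameters)
-/

set_option autoImplicit false

open MeasureTheory ProbabilityTheory Filter Topology Finset
open scoped Nat ENNReal

namespace Pool.Agent.H75.AG

open Pool.Agent.H67.AG
open Pool.Agent.H24.T2 (Pset)

section limits

theorem ul_le_c (hul : T_UL) (U : Ultrafilter ℕ) (f : ℕ → ℝ) (C a : ℝ) (h : ∀ n, |f n| ≤ C)
    (hf : ∀ᶠ n in (U : Filter ℕ), f n ≤ a) : ul U f ≤ a := by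
  obtain ⟨-, h2, -, -, h5⟩ := hul U
  have := h2 f (fun _ => a) ⟨C, h⟩ ⟨|a|, fun _ => le_refl _⟩ hf
  rwa [h5 a] at this

theorem ul_abs (hul : T_UL) (U : Ultrafilter ℕ) (f : ℕ → ℝ) (C : ℝ) (h : ∀ n, |f n| ≤ C) :
    |ul U f| ≤ C := by
  obtain ⟨-, h2, -, -, h5⟩ := hul U
  rw [abs_le]
  constructor
  · have := h2 (fun _ => -C) f ⟨|C|, fun _ => by rw [abs_neg]⟩ ⟨C, h⟩
      (Eventually.of_forall fun n => (abs_le.1 (h n)).1)
    rwa [h5 (-C)] at this
  · exact ul_le_c hul U f C C h (Eventually.of_forall fun n => (abs_le.1 (h n)).2)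

theorem avgP_abs (W m : ℕ) (F : ℕ → ℝ) (C : ℝ) (hC : 0 ≤ C) (h : ∀ p, |F p| ≤ C) :
    |avgP W m F| ≤ C := by
  unfold avgP
  rw [abs_div, Nat.abs_cast]
  refine div_le_of_le_mul₀ (Nat.cast_nonneg _) hC ?_
  refine (Finset.abs_sum_le_sum_abs _ _).trans ?_
  calc ∑ p ∈ Pset W m, |F p| ≤ ∑ p ∈ Pset W m, C := Finset.sum_le_sum fun p _ => h p
    _ = C * ((Pset W m).card : ℝ) := by rw [Finset.sum_const, nsmul_eq_mul, mul_comm]

theorem avgP_affine (W m : ℕ) (F G : ℕ → ℝ) (a c : ℝ) (ha : 0 ≤ a)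
    (h : ∀ p, F p ≤ a + c * G p) : avgP W m F ≤ a + c * avgP W m G := by
  unfold avgP
  rcases Nat.eq_zero_or_pos (Pset W m).card with h0 | h0
  · rw [h0]
    simpa using ha
  · have h1 : (0 : ℝ) < ((Pset W m).card : ℝ) := by exact_mod_cast h0
    rw [div_le_iff₀ h1]
    calc ∑ p ∈ Pset W m, F p ≤ ∑ p ∈ Pset W m, (a + c * G p) :=
          Finset.sum_le_sum fun p _ => h p
      _ = a * ((Pset W m).card : ℝ) + c * ∑ p ∈ Pset W m, G p := by
          rw [Finset.sum_add_distrib, Finset.sum_const, nsmul_eq_mul, Finset.mul_sum]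
          ring
      _ = (a + c * ((∑ p ∈ Pset W m, G p) / ((Pset W m).card : ℝ))) *
            ((Pset W m).card : ℝ) := by
          field_simp

end limits

section reference

variable (d : Sw)

theorem FF_meas (p : ℕ) (j : Fin d.k → Fin d.n) : Measurable (d.FF p j) := by
  unfold Sw.FF
  exact Finset.measurable_fun_prod _ fun i _ =>
    ((d.hy (j i)).1 i).comp (d.T'.measurable.iterate _)

theorem FF_abs (p : ℕ) (j : Fin d.k → Fin d.n) (ω : d.Ω') : |d.FF p j ω| ≤ 1 := by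
  unfold Sw.FF
  rw [Finset.abs_prod]
  refine Finset.prod_le_one (fun i _ => abs_nonneg _) fun i _ => ?_
  rcases (d.hy (j i)).2 i (d.T'^[(p - 1) * d.β i] ω) with h | h <;> rw [h] <;> norm_num

theorem gg_meas (a b : Fin d.n) (i : Fin d.k) : Measurable (d.gg a b i) := by
  unfold Sw.gg
  exact ((d.hy a).1 i).mul ((d.hy b).1 i)

theorem gg_abs (a b : Fin d.n) (i : Fin d.k) (ω : d.Ω') : |d.gg a b i ω| ≤ 1 := by
  unfold Sw.gg
  rcases (d.hy a).2 i ω with h | h <;> rcases (d.hy b).2 i ω with h' | h' <;> rw [h, h'] <;>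
    norm_num

/-- difference of two ergodic averages of the products -/
noncomputable def hF (L L'' p : ℕ) (j : Fin d.k → Fin d.n) (ω : d.Ω') : ℝ :=
  Av d.T' d.W L (d.FF p j) ω - Av d.T' d.W L'' (d.FF p j) ω

theorem hF_meas (L L'' p : ℕ) (j : Fin d.k → Fin d.n) : Measurable (hF d L L'' p j) :=
  (Av_meas _ _ _ _ (FF_meas d p j)).sub (Av_meas _ _ _ _ (FF_meas d p j))

theorem hF_abs (L L'' p : ℕ) (j : Fin d.k → Fin d.n) (ω : d.Ω') : |hF d L L'' p j ω| ≤ 2 := by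
  have h1 := Av_abs d.T' d.W L _ (FF_abs d p j) ω
  have h2 := Av_abs d.T' d.W L'' _ (FF_abs d p j) ω
  unfold hF
  calc |Av d.T' d.W L (d.FF p j) ω - Av d.T' d.W L'' (d.FF p j) ω| ≤
        |Av d.T' d.W L (d.FF p j) ω| + |Av d.T' d.W L'' (d.FF p j) ω| := abs_sub _ _
    _ ≤ 2 := by linarith

theorem hF_sq_abs (L L'' p : ℕ) (j : Fin d.k → Fin d.n) (ω : d.Ω') :
    |hF d L L'' p j ω ^ 2| ≤ 4 := by
  rw [abs_pow]
  have := hF_abs d L L'' p j ω
  nlinarith [abs_nonneg (hF d L L'' p j ω)]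

theorem int_abs_C {Ω : Type} [MeasurableSpace Ω] (P : Measure Ω) [IsProbabilityMeasure P]
    (f : Ω → ℝ) (C : ℝ) (hf : ∀ ω, |f ω| ≤ C) (A : Set Ω) (hC : 0 ≤ C) :
    |∫ ω in A, f ω ∂P| ≤ C := by
  have h := norm_setIntegral_le_of_norm_le_const (μ := P) (s := A) (f := f) (C := C)
    (measure_lt_top P A) (fun ω _ => by rw [Real.norm_eq_abs]; exact hf ω)
  rw [Real.norm_eq_abs] at h
  refine h.trans ?_
  have h1 : P.real A ≤ 1 := measureReal_le_one
  nlinarith [measureReal_nonneg (μ := P) (s := A)]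

end reference

section extension

variable {d : Sw} (e : SwE d)

theorem comp_int (h : d.Ω' → ℝ) (hm : Measurable h) :
    ∫ ω, |h (e.g ω)| ∂e.P = ∫ ω, |h ω| ∂d.P' := by
  have hm' : Measurable fun ω => |h ω| := hm.abs
  rw [← e.fac.1.map_eq, integral_map e.fac.1.measurable.aemeasurable hm'.aestronglyMeasurable]

theorem comp_integrable (h : d.Ω' → ℝ) (hi : Integrable h d.P') :
    Integrable (fun ω => h (e.g ω)) e.P :=
  e.fac.1.integrable_comp_of_integrable hi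

theorem set_comp_le (h : d.Ω' → ℝ) (hm : Measurable h) (hi : Integrable h d.P')
    (A : Set e.Ω) : ∫ ω in A, |h (e.g ω)| ∂e.P ≤ ∫ ω, |h ω| ∂d.P' := by
  rw [← comp_int e h hm]
  exact setIntegral_le_integral (comp_integrable e h hi).abs
    (Eventually.of_forall fun ω => abs_nonneg _)

theorem hF_set (L L'' p : ℕ) (j : Fin d.k → Fin d.n) (δ : ℝ) (hδ : 0 < δ) (A : Set e.Ω) :
    ∫ ω in A, |hF d L L'' p j (e.g ω)| ∂e.P ≤
      δ / 2 + 1 / (2 * δ) * ∫ ω, hF d L L'' p j ω ^ 2 ∂d.P' := by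
  have hi : Integrable (hF d L L'' p j) d.P' :=
    integrable_bdd (hF_meas d L L'' p j) 2 (hF_abs d L L'' p j)
  have hi2 : Integrable (fun ω => hF d L L'' p j ω ^ 2) d.P' :=
    integrable_bdd ((hF_meas d L L'' p j).pow_const 2) 4 (hF_sq_abs d L L'' p j)
  refine (set_comp_le e _ (hF_meas d L L'' p j) hi A).trans ?_
  refine (int_abs_le _ δ hδ hi hi2).trans (le_of_eq ?_)
  ring

theorem E2_le (hul : T_UL) (L : ℕ) (δ : ℝ) (hδ : 0 < δ)
    (hL : ∀ L'' : ℕ, L ≤ L'' → ∀ j : Fin d.k → Fin d.n, ul d.U (fun m => avgP d.W m fun p =>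
      ∫ ω, (Av d.T' d.W L (d.FF p j) ω - Av d.T' d.W L'' (d.FF p j) ω) ^ 2 ∂d.P') ≤ δ ^ 2)
    (A : Set e.Ω) : e.E2 L A ≤ ((d.n : ℝ) ^ d.k) * δ := by
  have hb : ∀ L'' p (j : Fin d.k → Fin d.n),
      |∫ ω in A, |hF d L L'' p j (e.g ω)| ∂e.P| ≤ 2 := fun L'' p j =>
    int_abs_C e.P _ 2 (fun ω => by rw [abs_abs]; exact hF_abs d L L'' p j _) A (by norm_num)
  have hb2 : ∀ L'' p (j : Fin d.k → Fin d.n), |∫ ω, hF d L L'' p j ω ^ 2 ∂d.P'| ≤ 4 := by
    intro L'' p j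
    have h := int_abs_C d.P' _ 4 (fun ω => hF_sq_abs d L L'' p j ω) Set.univ (by norm_num)
    rwa [setIntegral_univ] at h
  have hj : ∀ j : Fin d.k → Fin d.n, ul (hyperfilter ℕ) (fun L'' => ul d.U fun m =>
      avgP d.W m fun p => ∫ ω in A, |hF d L L'' p j (e.g ω)| ∂e.P) ≤ δ := by
    intro j
    refine ul_le_c hul _ _ 2 δ (fun L'' => ?_) ?_
    · exact ul_abs hul _ _ 2 fun m => avgP_abs _ _ _ 2 (by norm_num) fun p => hb L'' p j
    · have h1 : ∀ᶠ L'' in atTop, L ≤ L'' := eventually_ge_atTop L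
      have h2 : ((hyperfilter ℕ : Ultrafilter ℕ) : Filter ℕ) ≤ atTop := by
        have := hyperfilter_le_cofinite (α := ℕ)
        rwa [Nat.cofinite_eq_atTop] at this
      filter_upwards [h2 h1] with L'' hL''
      obtain ⟨-, hmono, hadd, hmul, hconst⟩ := hul d.U
      have hsq : ∀ m, |avgP d.W m fun p => ∫ ω, hF d L L'' p j ω ^ 2 ∂d.P'| ≤ 4 := fun m =>
        avgP_abs _ _ _ 4 (by norm_num) fun p => hb2 L'' p j
      have hsq' : ∀ m, |1 / (2 * δ) * avgP d.W m fun p => ∫ ω, hF d L L'' p j ω ^ 2 ∂d.P'| ≤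
          1 / (2 * δ) * 4 := fun m => by
        rw [abs_mul, abs_of_pos (show (0 : ℝ) < 1 / (2 * δ) by positivity)]
        exact mul_le_mul_of_nonneg_left (hsq m) (by positivity)
      have h3 : ul d.U (fun m => avgP d.W m fun p => ∫ ω in A, |hF d L L'' p j (e.g ω)| ∂e.P) ≤
          ul d.U (fun m => δ / 2 + 1 / (2 * δ) *
            avgP d.W m fun p => ∫ ω, hF d L L'' p j ω ^ 2 ∂d.P') := by
        refine hmono _ _ ⟨2, fun m => avgP_abs _ _ _ 2 (by norm_num) fun p => hb L'' p j⟩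
          ⟨δ / 2 + 1 / (2 * δ) * 4, fun m => ?_⟩ (Eventually.of_forall fun m => ?_)
        · refine (abs_add_le _ _).trans (add_le_add ?_ (hsq' m))
          rw [abs_of_pos (by positivity)]
        · exact avgP_affine _ _ _ _ _ _ (by positivity) fun p => hF_set e L L'' p j δ hδ A
      have h4 : ul d.U (fun m => δ / 2 + 1 / (2 * δ) *
            avgP d.W m fun p => ∫ ω, hF d L L'' p j ω ^ 2 ∂d.P') =
          δ / 2 + 1 / (2 * δ) *
            ul d.U (fun m => avgP d.W m fun p => ∫ ω, hF d L L'' p j ω ^ 2 ∂d.P') := by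
        rw [hadd (fun _ => δ / 2) _ ⟨|δ / 2|, fun _ => le_refl _⟩ ⟨_, hsq'⟩, hconst,
          hmul _ _ ⟨4, hsq⟩]
      rw [h4] at h3
      refine h3.trans ?_
      have h5 : ul d.U (fun m => avgP d.W m fun p => ∫ ω, hF d L L'' p j ω ^ 2 ∂d.P') ≤ δ ^ 2 :=
        hL L'' hL'' j
      calc δ / 2 + 1 / (2 * δ) *
            ul d.U (fun m => avgP d.W m fun p => ∫ ω, hF d L L'' p j ω ^ 2 ∂d.P')
          ≤ δ / 2 + 1 / (2 * δ) * δ ^ 2 :=
            add_le_add (le_refl _) (mul_le_mul_of_nonneg_left h5 (by positivity))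
        _ = δ := by field_simp; ring
  calc e.E2 L A ≤ ∑ _j : Fin d.k → Fin d.n, δ := Finset.sum_le_sum fun j _ => hj j
    _ = ((d.n : ℝ) ^ d.k) * δ := by
        rw [Finset.sum_const, card_univ, Fintype.card_fun, Fintype.card_fin, Fintype.card_fin,
          nsmul_eq_mul, Nat.cast_pow]

theorem mv_eq (l : ℕ) : e.mv l = Set.indicator {ω | e.s (e.T^[d.W * l] ω) ≠ e.s ω}
    (fun _ => (1 : ℝ)) := by
  classical
  funext ω
  unfold SwE.mv
  by_cases h : e.s (e.T^[d.W * l] ω) = e.s ω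
  · rw [if_pos h, Set.indicator_of_notMem]
    exact fun h' => h' h
  · rw [if_neg h, Set.indicator_of_mem]
    exact h

theorem mv_set_meas (l : ℕ) : MeasurableSet {ω | e.s (e.T^[d.W * l] ω) ≠ e.s ω} := by
  have h : MeasurableSet {ω | e.s (e.T^[d.W * l] ω) = e.s ω} :=
    measurableSet_eq_fun (e.sm.comp (iter_meas e _)) e.sm
  exact h.compl

theorem mv_meas (l : ℕ) : Measurable (e.mv l) := by
  rw [mv_eq]
  exact measurable_const.indicator (mv_set_meas e l)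

theorem mv_nn (l : ℕ) (ω : e.Ω) : 0 ≤ e.mv l ω := by
  unfold SwE.mv; split_ifs <;> norm_num

theorem mv_le (l : ℕ) (ω : e.Ω) : e.mv l ω ≤ 1 := by
  unfold SwE.mv; split_ifs <;> norm_num

theorem mv_int (l : ℕ) : Integrable (e.mv l) e.P :=
  integrable_bdd (mv_meas e l) 1 fun ω => by rw [abs_of_nonneg (mv_nn e l ω)]; exact mv_le e l ω

theorem mv_integral (l : ℕ) : ∫ ω, e.mv l ω ∂e.P =
    e.P.real {ω | e.s (e.T^[d.W * l] ω) ≠ e.s ω} := by
  rw [mv_eq, integral_indicator_const _ (mv_set_meas e l), smul_eq_mul, mul_one]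

theorem mv_set (l : ℕ) (A : Set e.Ω) (η : ℝ)
    (h : e.P.real {ω | e.s (e.T^[d.W * l] ω) ≠ e.s ω} ≤ η) : ∫ ω in A, e.mv l ω ∂e.P ≤ η := by
  refine le_trans ?_ ((mv_integral e l).le.trans h)
  exact setIntegral_le_integral (mv_int e l) (Eventually.of_forall fun ω => mv_nn e l ω)

theorem mean_mv (N : ℕ) (hN : 0 < N) (c : ℝ) (hc : 0 ≤ c) (f : ℕ → ℝ) (η : ℝ)
    (h : ∀ l ∈ range N, f l ≤ η) : c / (N : ℝ) * ∑ l ∈ range N, f l ≤ c * η := by
  have hN' : (0 : ℝ) < N := by exact_mod_cast hN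
  calc c / (N : ℝ) * ∑ l ∈ range N, f l ≤ c / (N : ℝ) * ∑ l ∈ range N, η :=
        mul_le_mul_of_nonneg_left (Finset.sum_le_sum h) (by positivity)
    _ = c * η := by
        rw [Finset.sum_const, card_range, nsmul_eq_mul]
        field_simp

end extension

theorem Dlt_pos {k : ℕ} (β : Fin k → ℕ) : 0 < Dlt β := by
  unfold Dlt
  refine Finset.prod_pos fun i _ => Finset.prod_pos fun j _ => ?_
  split_ifs with h
  · exact Nat.one_pos
  · have h1 : ((β i : ℤ) - β j) ≠ 0 := by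
      intro h2
      exact h (by omega)
    exact Int.natAbs_pos.2 h1

section references

variable (d : Sw)

/-- difference of an ergodic average and the conditional expectation of the products -/
noncomputable def hG (L : ℕ) (a b : Fin d.n) (i : Fin d.k) (ω : d.Ω') : ℝ :=
  Av d.T' (d.W * Dlt d.β) L (d.gg a b i) ω - (d.P'[d.gg a b i | Inv d.T' d.W]) ω

theorem hG_meas (L : ℕ) (a b : Fin d.n) (i : Fin d.k) : Measurable (hG d L a b i) :=
  (Av_meas _ _ _ _ (gg_meas d a b i)).sub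
    (stronglyMeasurable_condExp.mono (MeasurableSpace.invariants_le _)).measurable

theorem hG_int (L : ℕ) (a b : Fin d.n) (i : Fin d.k) : Integrable (hG d L a b i) d.P' :=
  (integrable_bdd (Av_meas _ _ _ _ (gg_meas d a b i)) 1
    (Av_abs _ _ _ _ (gg_abs d a b i))).sub integrable_condExp

theorem close_gg (hme : T_ME) (ε : ℝ) (hε : 0 < ε) : ∃ N : ℕ, 0 < N ∧ ∀ a b i,
    ∫ ω, |Av d.T' (d.W * Dlt d.β) N (d.gg a b i) ω -
      (d.P'[d.gg a b i | Inv d.T' (d.W * Dlt d.β)]) ω| ∂d.P' ≤ ε := by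
  have h1 : ∀ a b i, ∀ᶠ N : ℕ in atTop, ∫ ω, (Av d.T' (d.W * Dlt d.β) N (d.gg a b i) ω -
      (d.P'[d.gg a b i | Inv d.T' (d.W * Dlt d.β)]) ω) ^ 2 ∂d.P' < ε ^ 2 := fun a b i =>
    (hme d.Ω' d.P' d.T' (d.W * Dlt d.β) (d.gg a b i) d.mp' (gg_meas d a b i)
      (gg_abs d a b i)).eventually_lt_const (by positivity)
  have h2 := Filter.eventually_all.2 fun a => Filter.eventually_all.2 fun b =>
    Filter.eventually_all.2 fun i => h1 a b i
  obtain ⟨N, hN, hN1⟩ := (h2.and (eventually_ge_atTop 1)).exists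
  refine ⟨N, hN1, fun a b i => ?_⟩
  set q := d.P'[d.gg a b i | Inv d.T' (d.W * Dlt d.β)] with hq
  have hqb : ∀ᵐ ω ∂d.P', |q ω| ≤ 1 := by
    exact ae_bdd_abs_condExp_of_ae_bdd_abs (R := (1 : ℝ))
      (Eventually.of_forall fun ω => gg_abs d a b i ω)
  have hm : Measurable fun ω => Av d.T' (d.W * Dlt d.β) N (d.gg a b i) ω - q ω :=
    (Av_meas _ _ _ _ (gg_meas d a b i)).sub
      (stronglyMeasurable_condExp.mono (MeasurableSpace.invariants_le _)).measurable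
  have hb : ∀ᵐ ω ∂d.P', ‖Av d.T' (d.W * Dlt d.β) N (d.gg a b i) ω - q ω‖ ≤ 2 := by
    filter_upwards [hqb] with ω hω
    rw [Real.norm_eq_abs]
    have h3 := Av_abs d.T' (d.W * Dlt d.β) N _ (gg_abs d a b i) ω
    calc |Av d.T' (d.W * Dlt d.β) N (d.gg a b i) ω - q ω| ≤
          |Av d.T' (d.W * Dlt d.β) N (d.gg a b i) ω| + |q ω| := abs_sub _ _
      _ ≤ 2 := by linarith
  have hi : Integrable (fun ω => Av d.T' (d.W * Dlt d.β) N (d.gg a b i) ω - q ω) d.P' :=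
    Integrable.of_bound hm.aestronglyMeasurable 2 hb
  have hi2 : Integrable (fun ω => (Av d.T' (d.W * Dlt d.β) N (d.gg a b i) ω - q ω) ^ 2) d.P' := by
    refine Integrable.of_bound (hm.pow_const 2).aestronglyMeasurable 4 ?_
    filter_upwards [hb] with ω hω
    rw [norm_pow]
    nlinarith [norm_nonneg (Av d.T' (d.W * Dlt d.β) N (d.gg a b i) ω - q ω)]
  refine (int_abs_le _ ε hε hi hi2).trans ?_
  have h4 : (∫ ω, (Av d.T' (d.W * Dlt d.β) N (d.gg a b i) ω - q ω) ^ 2 ∂d.P') / (2 * ε) ≤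
      ε / 2 := by
    rw [div_le_iff₀ (by positivity)]
    have := (hN a b i).le
    nlinarith
  linarith

theorem sum_hG (hme : T_ME) (η : ℝ) (hη : 0 < η)
    (h : ∑ a, ∑ b, ∑ i, ∫ ω, |(d.P'[d.gg a b i | Inv d.T' (d.W * Dlt d.β)]) ω -
      (d.P'[d.gg a b i | Inv d.T' d.W]) ω| ∂d.P' ≤ η) :
    ∃ L : ℕ, 0 < L ∧ ∑ i, ∑ a, ∑ b, ∫ ω, |hG d L a b i ω| ∂d.P' ≤ 2 * η := by
  have hpos : (0 : ℝ) < d.n * d.n * d.k + 1 := by positivity
  obtain ⟨L, hL, hb⟩ := close_gg d hme (η / (d.n * d.n * d.k + 1)) (by positivity)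
  refine ⟨L, hL, ?_⟩
  have h1 : ∀ a b i, ∫ ω, |hG d L a b i ω| ∂d.P' ≤ η / (d.n * d.n * d.k + 1) +
      ∫ ω, |(d.P'[d.gg a b i | Inv d.T' (d.W * Dlt d.β)]) ω -
        (d.P'[d.gg a b i | Inv d.T' d.W]) ω| ∂d.P' := by
    intro a b i
    refine le_trans ?_ (add_le_add (hb a b i) (le_refl _))
    have hi1 : Integrable (fun ω => |Av d.T' (d.W * Dlt d.β) L (d.gg a b i) ω -
        (d.P'[d.gg a b i | Inv d.T' (d.W * Dlt d.β)]) ω|) d.P' :=
      ((integrable_bdd (Av_meas _ _ _ _ (gg_meas d a b i)) 1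
        (Av_abs _ _ _ _ (gg_abs d a b i))).sub integrable_condExp).abs
    have hi2 : Integrable (fun ω => |(d.P'[d.gg a b i | Inv d.T' (d.W * Dlt d.β)]) ω -
        (d.P'[d.gg a b i | Inv d.T' d.W]) ω|) d.P' :=
      (integrable_condExp.sub integrable_condExp).abs
    rw [← integral_add hi1 hi2]
    refine integral_mono (hG_int d L a b i).abs (hi1.add hi2) fun ω => ?_
    unfold hG
    exact abs_sub_le _ _ _
  have h2 : ∑ i, ∑ a, ∑ b, ∫ ω, |hG d L a b i ω| ∂d.P' ≤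
      ∑ i : Fin d.k, ∑ a : Fin d.n, ∑ b : Fin d.n, (η / (d.n * d.n * d.k + 1) +
      ∫ ω, |(d.P'[d.gg a b i | Inv d.T' (d.W * Dlt d.β)]) ω -
        (d.P'[d.gg a b i | Inv d.T' d.W]) ω| ∂d.P') :=
    Finset.sum_le_sum fun i _ => Finset.sum_le_sum fun a _ => Finset.sum_le_sum fun b _ =>
      h1 a b i
  refine h2.trans ?_
  simp only [Finset.sum_add_distrib, Finset.sum_const, card_univ, Fintype.card_fin, nsmul_eq_mul]
  have h3 : ∑ i : Fin d.k, ∑ a : Fin d.n, ∑ b : Fin d.n,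
      ∫ ω, |(d.P'[d.gg a b i | Inv d.T' (d.W * Dlt d.β)]) ω -
        (d.P'[d.gg a b i | Inv d.T' d.W]) ω| ∂d.P' ≤ η := by
    refine le_trans (le_of_eq ?_) h
    rw [Finset.sum_comm]
    exact Finset.sum_congr rfl fun a _ => Finset.sum_comm
  have h4 : (d.k : ℝ) * (d.n * (d.n * (η / (d.n * d.n * d.k + 1)))) ≤ η := by
    have : (d.k : ℝ) * (d.n * (d.n * (η / (d.n * d.n * d.k + 1)))) =
        (d.n * d.n * d.k) * η / (d.n * d.n * d.k + 1) := by ring
    rw [this, div_le_iff₀ hpos]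
    nlinarith
  linarith

end references

theorem pf_S6 (hul : T_UL) (hme : T_ME) (_hna : T_NA) (h1 : T_S1) : T_S6 := by
  intro d η hη hsum hw
  set δ : ℝ := η / ((d.n : ℝ) ^ d.k + 1) with hδ
  have hnk : (0 : ℝ) < (d.n : ℝ) ^ d.k + 1 := by positivity
  have hδ0 : 0 < δ := by positivity
  obtain ⟨L, hL0, hL⟩ := h1 d (δ ^ 2) (by positivity)
  obtain ⟨L₂, hL₂, hsG⟩ := sum_hG d hme η hη hsum
  have hD := Dlt_pos d.β
  refine ⟨L, L₂, L + Dlt d.β * L₂ + Dlt d.β + 1, hL0, hL₂, fun e hmv => ⟨fun A hA => ?_, ?_⟩⟩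
  · have hk : (0 : ℝ) ≤ d.k := Nat.cast_nonneg _
    have hX1 : 2 * d.k / (L : ℝ) * ∑ l ∈ range L, ∫ ω in A, e.mv l ω ∂e.P ≤ 2 * d.k * η :=
      mean_mv L hL0 _ (by positivity) _ _ fun l hl => mv_set e l A η (hmv l (by
        have := Finset.mem_range.1 hl
        omega))
    have hX2 : e.E2 L A ≤ η := by
      refine (E2_le e hul L δ hδ0 hL A).trans ?_
      rw [hδ, mul_div_assoc', div_le_iff₀ hnk]
      nlinarith
    have hX3 : ∀ i, e.E3 L₂ i A ≤ 6 * η + ∑ a, ∑ b, ∫ ω, |hG d L₂ a b i ω| ∂d.P' := by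
      intro i
      have h3 : 4 / (L₂ : ℝ) * ∑ l ∈ range L₂, ∫ ω in A, e.mv (Dlt d.β * l) ω ∂e.P ≤ 4 * η :=
        mean_mv L₂ hL₂ _ (by norm_num) _ _ fun l hl => mv_set e _ A η (hmv _ (by
          have h4 := Finset.mem_range.1 hl
          have h5 : Dlt d.β * l ≤ Dlt d.β * L₂ := Nat.mul_le_mul_left _ h4.le
          omega))
      have h4 : 2 / (Dlt d.β : ℝ) * ∑ r ∈ range (Dlt d.β), ∫ ω in A, e.mv r ω ∂e.P ≤ 2 * η :=
        mean_mv _ hD _ (by norm_num) _ _ fun l hl => mv_set e _ A η (hmv _ (by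
          have h4 := Finset.mem_range.1 hl
          omega))
      have h5 : ∑ a, ∑ b, ∫ ω in A, |Av d.T' (d.W * Dlt d.β) L₂ (d.gg a b i) (e.g ω) -
          (d.P'[d.gg a b i | Inv d.T' d.W]) (e.g ω)| ∂e.P ≤
          ∑ a, ∑ b, ∫ ω, |hG d L₂ a b i ω| ∂d.P' :=
        Finset.sum_le_sum fun a _ => Finset.sum_le_sum fun b _ =>
          set_comp_le e (hG d L₂ a b i) (hG_meas d L₂ a b i) (hG_int d L₂ a b i) A
      unfold SwE.E3
      linarith
    have hX3' : ∑ i, e.E3 L₂ i A ≤ 6 * d.k * η + 2 * η := by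
      calc ∑ i, e.E3 L₂ i A ≤
            ∑ i : Fin d.k, (6 * η + ∑ a, ∑ b, ∫ ω, |hG d L₂ a b i ω| ∂d.P') :=
            Finset.sum_le_sum fun i _ => hX3 i
        _ = d.k * (6 * η) + ∑ i, ∑ a, ∑ b, ∫ ω, |hG d L₂ a b i ω| ∂d.P' := by
            rw [Finset.sum_add_distrib, Finset.sum_const, card_univ, Fintype.card_fin,
              nsmul_eq_mul]
        _ ≤ 6 * d.k * η + 2 * η := by linarith
    have hX3'' : d.k * ∑ i, e.E3 L₂ i A ≤ d.k * (6 * d.k * η + 2 * η) :=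
      mul_le_mul_of_nonneg_left hX3' hk
    have hX4 : (d.k : ℝ) ^ 2 / d.w * e.P.real A ≤ η := by
      have h6 : e.P.real A ≤ 1 := measureReal_le_one
      have h7 : 0 ≤ (d.k : ℝ) ^ 2 / d.w := by positivity
      calc (d.k : ℝ) ^ 2 / d.w * e.P.real A ≤ (d.k : ℝ) ^ 2 / d.w :=
            mul_le_of_le_one_right h7 h6
        _ ≤ η := hw
    unfold SwE.EE
    nlinarith [mul_nonneg hk hη.le, mul_nonneg (mul_nonneg hk hk) hη.le]
  · have hk : (0 : ℝ) ≤ d.k := Nat.cast_nonneg _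
    have hnn : 0 ≤ᵐ[e.P] e.P[e.mv 1 | Inv e.T d.W] :=
      condExp_nonneg (Eventually.of_forall fun ω => mv_nn e 1 ω)
    have hnn' : 0 ≤ᵐ[e.P] fun ω => (d.k : ℝ) * (e.P[e.mv 1 | Inv e.T d.W]) ω := by
      filter_upwards [hnn] with ω hω
      exact mul_nonneg hk hω
    have hmar := mul_meas_ge_le_integral_of_nonneg hnn' (integrable_condExp.const_mul _)
      (1 / 100)
    rw [integral_const_mul, integral_condExp (invle e), mv_integral] at hmar
    have h8 := hmv 1 (by omega)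
    have h9 : e.P.real {ω | 1 / 100 < (d.k : ℝ) * (e.P[e.mv 1 | Inv e.T d.W]) ω} ≤
        e.P.real {ω | 1 / 100 ≤ (d.k : ℝ) * (e.P[e.mv 1 | Inv e.T d.W]) ω} :=
      measureReal_mono (by
        intro ω hω
        rw [Set.mem_ofPred_eq] at hω ⊢
        exact hω.le)
    have h10 : (d.k : ℝ) * e.P.real {ω | e.s (e.T^[d.W * 1] ω) ≠ e.s ω} ≤ d.k * η :=
      mul_le_mul_of_nonneg_left h8 hk
    linarith

end Pool.Agent.H75.AG
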