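import Pool.Agent.H38.AG.Targets

/-!
# Board allg_modules: RO1 (the number of dependent sets without large primes)
-/

set_option autoImplicit false

open Pool.Agent.H38.RB Pool.Agent.H38.PS Pool.Agent.H82.RD Pool.Agent.H38.AB Pool.Agent.H38.AG

namespace Pool.Agent.H75.AG

open Finset

/-- the tuple of the classes of the members of a set -/
def tu (N w : ℕ) (Rm : Finset ℕ) (i : Fin w) : ℕ :=
  if h : Rm.card = w then Rm.orderEmbOfFin h i / N else 0

lemma tu_prod {N w : ℕ} {Rm : Finset ℕ} (h : Rm.card = w) :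
    ∏ i, tu N w Rm i = ∏ p ∈ Rm, p / N := by
  have h1 : ∀ i, tu N w Rm i = ((Rm.orderIsoOfFin h i : Rm) : ℕ) / N := by
    intro i
    unfold tu
    rw [dif_pos h]
    rfl
  rw [Finset.prod_congr rfl fun i _ => h1 i]
  refine Eq.trans ?_ (Finset.prod_coe_sort Rm fun p => p / N)
  exact Fintype.prod_equiv (Rm.orderIsoOfFin h).toEquiv _ (fun p : Rm => (p : ℕ) / N) fun i => rfl

lemma tu_mem {N w : ℕ} {Rm : Finset ℕ} (h : Rm.card = w) {p : ℕ} (hp : p ∈ Rm) :
    ∃ i, tu N w Rm i = p / N := by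
  refine ⟨(Rm.orderIsoOfFin h).symm ⟨p, hp⟩, ?_⟩
  unfold tu
  rw [dif_pos h]
  have h1 : Rm.orderEmbOfFin h ((Rm.orderIsoOfFin h).symm ⟨p, hp⟩) =
      ((Rm.orderIsoOfFin h ((Rm.orderIsoOfFin h).symm ⟨p, hp⟩) : Rm) : ℕ) := rfl
  rw [h1, OrderIso.apply_symm_apply]

lemma tu_pos {N w : ℕ} {Rm : Finset ℕ} (h : Rm.card = w) (hN : 0 < N) (hR : ∀ p ∈ Rm, N ≤ p)
    (i : Fin w) : 1 ≤ tu N w Rm i := by
  unfold tu
  rw [dif_pos h]
  exact (Nat.one_le_div_iff hN).2 (hR _ (Rm.orderEmbOfFin_mem h i))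

/-- the product of the classes -/
lemma prod_div_le {N w : ℕ} {Rm : Finset ℕ} (h : Rm.card = w) :
    ((∏ p ∈ Rm, p / N : ℕ) : ℝ) ≤ (pd Rm : ℝ) / (N : ℝ) ^ w := by
  unfold pd
  push_cast
  rw [← h, ← Finset.prod_const, ← Finset.prod_div_distrib]
  exact Finset.prod_le_prod (fun _ _ => Nat.cast_nonneg _) fun p _ => Nat.cast_div_le

/-- the primes which can occur -/
noncomputable def Pt (X E : ℝ) (N w q : ℕ) (S : Finset ℕ) (t : Fin w → ℕ) : Finset ℕ := by
  classical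
  exact (Finset.Icc 1 ⌊X⌋₊).filter fun p => p.Prime ∧ p ≠ q ∧ p ∉ S ∧
    ((p : ℝ) ≤ E ∨ ∃ i, p / N = t i)

lemma card_Pt {X E : ℝ} {N w q : ℕ} {S : Finset ℕ} {t : Fin w → ℕ} (hN : 0 < N)
    (hE : E ≤ N) : (Pt X E N w q S t).card ≤ N + 1 + w * N := by
  classical
  have h1 : Pt X E N w q S t ⊆ Finset.range (N + 1) ∪
      Finset.univ.biUnion fun i => Finset.Ico (t i * N) (t i * N + N) := by
    intro p hp
    unfold Pt at hp
    obtain ⟨-, -, -, -, h2 | ⟨i, h2⟩⟩ := Finset.mem_filter.1 hp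
    · refine Finset.mem_union_left _ (Finset.mem_range.2 (Nat.lt_succ_of_le ?_))
      exact_mod_cast h2.trans hE
    · refine Finset.mem_union_right _ (Finset.mem_biUnion.2 ⟨i, Finset.mem_univ _, ?_⟩)
      rw [Finset.mem_Ico, ← h2]
      have h3 := Nat.div_add_mod p N
      have h4 := Nat.mod_lt p hN
      rw [mul_comm] at h3
      omega
  refine (Finset.card_le_card h1).trans ((Finset.card_union_le _ _).trans ?_)
  rw [Finset.card_range]
  refine Nat.add_le_add_left (Finset.card_biUnion_le.trans ?_) _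
  rw [Finset.sum_congr rfl fun i _ => by rw [Nat.card_Ico, Nat.add_sub_cancel_left]]
  rw [Finset.sum_const, Finset.card_univ, Fintype.card_fin, smul_eq_mul]

/-- the sum of the logarithms -/
lemma sum_log_le {ℓ Zt : ℝ} (hℓ : 0 ≤ ℓ) {R Rt Rm : Finset ℕ} {w : ℕ} (hR : R = Rt ∪ Rm)
    (hd : Disjoint Rt Rm) (hp : ∀ p ∈ R, 1 ≤ p) (ht : (pd Rt : ℝ) ≤ Zt) (hm : Rm.card = w) :
    ∑ p ∈ R, Real.log (min (p : ℝ) (Real.exp (ℓ / 5000) + 1)) ≤
      Real.log Zt + w * (ℓ / 5000 + 1) := by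
  rw [hR, Finset.sum_union hd]
  have hp1 : ∀ p ∈ R, (1 : ℝ) ≤ p := fun p h => by exact_mod_cast hp p h
  have he : 1 ≤ Real.exp (ℓ / 5000) := Real.one_le_exp (by positivity)
  refine add_le_add ?_ ?_
  · have h1 : ∑ p ∈ Rt, Real.log (min (p : ℝ) (Real.exp (ℓ / 5000) + 1)) ≤
        ∑ p ∈ Rt, Real.log (p : ℝ) := by
      refine Finset.sum_le_sum fun p h => Real.log_le_log ?_ (min_le_left _ _)
      have := hp1 p (by rw [hR]; exact Finset.mem_union_left _ h)
      exact lt_min (by linarith) (by linarith)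
    have h2 : ∑ p ∈ Rt, Real.log (p : ℝ) = Real.log (pd Rt : ℝ) := by
      unfold pd
      rw [Nat.cast_prod, Real.log_prod]
      intro p h
      have := hp1 p (by rw [hR]; exact Finset.mem_union_left _ h)
      intro h0
      linarith
    rw [h2] at h1
    refine h1.trans (Real.log_le_log ?_ ht)
    unfold pd
    rw [Nat.cast_prod]
    refine Finset.prod_pos fun p h => ?_
    have := hp1 p (by rw [hR]; exact Finset.mem_union_left _ h)
    linarith
  · have h1 : ∀ p ∈ Rm, Real.log (min (p : ℝ) (Real.exp (ℓ / 5000) + 1)) ≤ ℓ / 5000 + 1 := by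
      intro p h
      have h2 := hp1 p (by rw [hR]; exact Finset.mem_union_right _ h)
      have h3 : Real.exp (ℓ / 5000) + 1 ≤ Real.exp (ℓ / 5000 + 1) := by
        rw [Real.exp_add]
        have h4 : (2 : ℝ) ≤ Real.exp 1 := by
          have := Real.add_one_le_exp (1 : ℝ)
          linarith
        nlinarith
      calc Real.log (min (p : ℝ) (Real.exp (ℓ / 5000) + 1))
          ≤ Real.log (Real.exp (ℓ / 5000 + 1)) := by
            refine Real.log_le_log (lt_min (by linarith) (by linarith)) ?_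
            exact (min_le_right _ _).trans h3
        _ = ℓ / 5000 + 1 := Real.log_exp _
    calc ∑ p ∈ Rm, Real.log (min (p : ℝ) (Real.exp (ℓ / 5000) + 1))
        ≤ Rm.card • (ℓ / 5000 + 1) := Finset.sum_le_card_nsmul _ _ _ h1
      _ = w * (ℓ / 5000 + 1) := by rw [hm, nsmul_eq_mul]

/-- the final numerical estimate for one `w` -/
lemma num_w {L ℓ Zt Zm Xη : ℝ} {w : ℕ} (hL : 16 ≤ L)
    (hLl : L ^ 3 ≤ Real.exp (ℓ / 100000)) (hZt : 1 ≤ Zt) (hZm : 1 ≤ Zm) (hX : 0 ≤ Xη)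
    (hw : Zm ≤ 2 * Real.exp (100 * ℓ) ^ w) :
    (Zm * Real.exp (-(ℓ / 10000)) ^ w * (1 + L) ^ w) *
      (Xη * Real.exp (3 / 20 * (Real.log Zt + w * (ℓ / 5000 + 1)))) ≤
    2 * Xη * Zt ^ (3 / 20 : ℝ) * Zm ^ (1 - 6 / 10000000 : ℝ) := by
  have hZt0 : 0 < Zt := by linarith
  have hZm0 : 0 < Zm := by linarith
  have h1 : Real.exp (3 / 20 * (Real.log Zt + w * (ℓ / 5000 + 1))) =
      Zt ^ (3 / 20 : ℝ) * Real.exp (3 * ℓ / 100000 + 3 / 20) ^ w := by
    rw [Real.rpow_def_of_pos hZt0, ← Real.exp_nat_mul, ← Real.exp_add]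
    congr 1
    ring
  have h2 : (1 + L) * Real.exp (3 / 20) ≤ L ^ 3 := by
    have h3 : Real.exp (3 / 20) ≤ 2 := by
      have h4 : Real.exp (3 / 20) ≤ Real.exp (1 / 2) := Real.exp_le_exp.2 (by norm_num)
      have h5 : Real.exp (1 / 2) ^ 2 = Real.exp 1 := by
        rw [← Real.exp_nat_mul]
        norm_num
      have h6 := Real.exp_one_lt_d9
      nlinarith [Real.exp_pos (1 / 2 : ℝ)]
    have h7 : (1 + L) * Real.exp (3 / 20) ≤ (1 + L) * 2 :=
      mul_le_mul_of_nonneg_left h3 (by linarith)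
    nlinarith [mul_self_nonneg L, mul_nonneg (by linarith : (0 : ℝ) ≤ L) (mul_self_nonneg L)]
  have h3 : Real.exp (-(ℓ / 10000)) * ((1 + L) * Real.exp (3 * ℓ / 100000 + 3 / 20)) ≤
      Real.exp (-(6 * ℓ / 100000)) := by
    calc Real.exp (-(ℓ / 10000)) * ((1 + L) * Real.exp (3 * ℓ / 100000 + 3 / 20))
        = Real.exp (-(7 * ℓ / 100000)) * ((1 + L) * Real.exp (3 / 20)) := by
          have h4 : Real.exp (-(ℓ / 10000)) * Real.exp (3 * ℓ / 100000 + 3 / 20) =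
              Real.exp (-(7 * ℓ / 100000)) * Real.exp (3 / 20) := by
            rw [← Real.exp_add, ← Real.exp_add]
            congr 1
            ring
          calc _ = (1 + L) * (Real.exp (-(ℓ / 10000)) * Real.exp (3 * ℓ / 100000 + 3 / 20)) := by
                ring
            _ = _ := by
                rw [h4]
                ring
      _ ≤ Real.exp (-(7 * ℓ / 100000)) * Real.exp (ℓ / 100000) :=
          mul_le_mul_of_nonneg_left (h2.trans hLl) (Real.exp_nonneg _)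
      _ = Real.exp (-(6 * ℓ / 100000)) := by
          rw [← Real.exp_add]
          congr 1
          ring
  have h4 : (Real.exp (-(ℓ / 10000)) * ((1 + L) * Real.exp (3 * ℓ / 100000 + 3 / 20))) ^ w ≤
      2 * Zm ^ (-(6 / 10000000) : ℝ) := by
    have h5 : Real.log Zm ≤ Real.log 2 + 100 * ℓ * w := by
      have h6 := Real.log_le_log hZm0 hw
      rw [Real.log_mul (by norm_num) (by positivity), Real.log_pow, Real.log_exp] at h6
      linarith
    have h6 : Real.log 2 ≤ 1 := by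
      have := Real.log_two_lt_d9
      linarith
    have h60 : 0 ≤ Real.log 2 := Real.log_nonneg (by norm_num)
    calc (Real.exp (-(ℓ / 10000)) * ((1 + L) * Real.exp (3 * ℓ / 100000 + 3 / 20))) ^ w
        ≤ Real.exp (-(6 * ℓ / 100000)) ^ w := by
          refine pow_le_pow_left₀ (mul_nonneg (Real.exp_nonneg _)
            (mul_nonneg (by linarith) (Real.exp_nonneg _))) h3 w
      _ = Real.exp (w * (-(6 * ℓ / 100000))) := by rw [← Real.exp_nat_mul]
      _ ≤ Real.exp (Real.log 2 + Real.log Zm * (-(6 / 10000000))) := by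
          refine Real.exp_le_exp.2 ?_
          nlinarith
      _ = 2 * Zm ^ (-(6 / 10000000) : ℝ) := by
          rw [Real.exp_add, Real.exp_log (by norm_num), Real.rpow_def_of_pos hZm0]
  rw [h1]
  have h5 : Zm ^ (1 - 6 / 10000000 : ℝ) = Zm * Zm ^ (-(6 / 10000000) : ℝ) := by
    rw [sub_eq_add_neg, Real.rpow_add hZm0, Real.rpow_one]
  rw [h5]
  calc (Zm * Real.exp (-(ℓ / 10000)) ^ w * (1 + L) ^ w) *
        (Xη * (Zt ^ (3 / 20 : ℝ) * Real.exp (3 * ℓ / 100000 + 3 / 20) ^ w))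
      = (Zm * Xη * Zt ^ (3 / 20 : ℝ)) *
        (Real.exp (-(ℓ / 10000)) * ((1 + L) * Real.exp (3 * ℓ / 100000 + 3 / 20))) ^ w := by
        rw [mul_pow, mul_pow]
        ring
    _ ≤ (Zm * Xη * Zt ^ (3 / 20 : ℝ)) * (2 * Zm ^ (-(6 / 10000000) : ℝ)) :=
        mul_le_mul_of_nonneg_left h4 (by positivity)
    _ = _ := by ring

/-- the number of the primes which can occur -/
lemma num_P {L E N w s p : ℝ} (hL : 16 ≤ L) (hE : L ^ 3 ≤ E) (hN : N ≤ E + 1)
    (hN0 : 0 ≤ N) (hw : w ≤ L) (hs : s ≤ L) (hp : p ≤ N + 1 + w * N) :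
    s + p ≤ E * E := by
  have h1 : 256 * L ≤ L ^ 3 := by
    have h3 : 256 ≤ L * L := by nlinarith
    have h4 : 256 * L ≤ (L * L) * L := mul_le_mul_of_nonneg_right h3 (by linarith)
    linarith [show L ^ 3 = (L * L) * L by ring]
  have h2 : w * N ≤ L * (E + 1) := mul_le_mul hw hN hN0 (by linarith)
  nlinarith

/-- the number of the values of `w` -/
lemma num_L {L η X : ℝ} (hη : 0 < η) (hX : 0 < X) (hLX : L = Real.log X) (hL : 1 ≤ L)
    (hL2 : 32 / η ^ 2 ≤ L) : (L + 1) * 2 ≤ X ^ (η / 2) := by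
  rw [Real.rpow_def_of_pos hX, ← hLX]
  have h1 := Real.quadratic_le_exp_of_nonneg (x := L * (η / 2)) (by positivity)
  have h2 : 32 ≤ L * η ^ 2 := by
    rw [div_le_iff₀ (by positivity)] at hL2
    exact hL2
  have h3 : 0 ≤ L * (η / 2) := by positivity
  nlinarith

/-- the bound for one value of `w` -/
lemma bound_w {X L ℓ Zt Zm E Xη : ℝ} {w N : ℕ} {Fw : Finset (Finset ℕ)} (hTUP : T_TUP)
    (hL : 16 ≤ L) (hLX : L = Real.log X) (hE : E = Real.exp (ℓ / 10000)) (hEN : E ≤ N)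
    (hN : 0 < N) (hLl : L ^ 3 ≤ Real.exp (ℓ / 100000)) (hZt : 1 ≤ Zt) (hZm : 1 ≤ Zm)
    (hZmX : Zm ≤ X) (hX : 0 ≤ Xη)
    (hF : ∀ R ∈ Fw, (R.filter fun p : ℕ => ¬ (p : ℝ) ≤ E).card = w ∧
      (pd (R.filter fun p : ℕ => ¬ (p : ℝ) ≤ E) : ℝ) ≤ Zm ∧
      Zm ≤ 2 * (pd (R.filter fun p : ℕ => ¬ (p : ℝ) ≤ E) : ℝ) ∧
      (∀ p ∈ R, (p : ℝ) ≤ Real.exp (100 * ℓ)) ∧ ∀ p ∈ R.filter fun p : ℕ => ¬ (p : ℝ) ≤ E, N ≤ p)
    (hfib : ∀ t : Fin w → ℕ, ((Fw.filter fun R =>
      tu N w (R.filter fun p : ℕ => ¬ (p : ℝ) ≤ E) = t).card : ℝ) ≤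
        Xη * Real.exp (3 / 20 * (Real.log Zt + w * (ℓ / 5000 + 1)))) :
    (Fw.card : ℝ) ≤ 2 * Xη * Zt ^ (3 / 20 : ℝ) * Zm ^ (1 - 6 / 10000000 : ℝ) := by
  classical
  rcases Fw.eq_empty_or_nonempty with h0 | ⟨R0, hR0⟩
  · rw [h0, Finset.card_empty, Nat.cast_zero]
    have : 0 < Zt := by linarith
    have : 0 < Zm := by linarith
    positivity
  have hN' : (0 : ℝ) < N := by exact_mod_cast hN
  have hNw : (0 : ℝ) < (N : ℝ) ^ w := by positivity
  have hprod : ∀ R ∈ Fw, ((∏ i, tu N w (R.filter fun p : ℕ => ¬ (p : ℝ) ≤ E) i : ℕ) : ℝ) ≤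
      Zm / (N : ℝ) ^ w := by
    intro R hR
    obtain ⟨h1, h2, -⟩ := hF R hR
    rw [tu_prod h1]
    exact (prod_div_le h1).trans (div_le_div_of_nonneg_right h2 hNw.le)
  have hone : ∀ R ∈ Fw, ∀ i, 1 ≤ tu N w (R.filter fun p : ℕ => ¬ (p : ℝ) ≤ E) i := by
    intro R hR i
    obtain ⟨h1, -, -, -, h2⟩ := hF R hR
    exact tu_pos h1 hN h2 i
  have hY : 1 ≤ Zm / (N : ℝ) ^ w := by
    refine le_trans ?_ (hprod R0 hR0)
    have h1 : 1 ≤ ∏ i, tu N w (R0.filter fun p : ℕ => ¬ (p : ℝ) ≤ E) i :=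
      Nat.one_le_iff_ne_zero.2 (Finset.prod_ne_zero_iff.2 fun i _ =>
        Nat.one_le_iff_ne_zero.1 (hone R0 hR0 i))
    exact_mod_cast h1
  obtain ⟨hfin, hcard⟩ := hTUP w (Zm / (N : ℝ) ^ w) hY
  rw [Set.ncard_eq_toFinset_card _ hfin] at hcard
  have h1 : Fw.card = ∑ t ∈ hfin.toFinset, (Fw.filter fun R =>
      tu N w (R.filter fun p : ℕ => ¬ (p : ℝ) ≤ E) = t).card := by
    refine Finset.card_eq_sum_card_fiberwise fun R hR => ?_
    have hR' : R ∈ Fw := hR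
    exact (Set.Finite.mem_toFinset hfin).2 ⟨hone R hR', hprod R hR'⟩
  have h2 : (Fw.card : ℝ) ≤ (hfin.toFinset.card : ℝ) *
      (Xη * Real.exp (3 / 20 * (Real.log Zt + w * (ℓ / 5000 + 1)))) := by
    rw [h1, Nat.cast_sum]
    refine (Finset.sum_le_card_nsmul _ _ _ fun t _ => hfib t).trans_eq ?_
    rw [nsmul_eq_mul]
  have h3 : (hfin.toFinset.card : ℝ) ≤ Zm * Real.exp (-(ℓ / 10000)) ^ w * (1 + L) ^ w := by
    refine hcard.trans ?_
    have h4 : Zm / (N : ℝ) ^ w ≤ Zm * Real.exp (-(ℓ / 10000)) ^ w := by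
      rw [div_eq_mul_inv]
      refine mul_le_mul_of_nonneg_left ?_ (by linarith)
      rw [Real.exp_neg, ← hE, inv_pow]
      have hE0 : 0 < E := by rw [hE]; exact Real.exp_pos _
      exact inv_anti₀ (by positivity) (pow_le_pow_left₀ hE0.le hEN w)
    have h5 : Real.log (Zm / (N : ℝ) ^ w) ≤ L := by
      rw [hLX]
      refine Real.log_le_log (by linarith) (le_trans ?_ hZmX)
      refine div_le_self (by linarith) ?_
      exact one_le_pow₀ (by exact_mod_cast hN)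
    have h6 : 0 ≤ Real.log (Zm / (N : ℝ) ^ w) := Real.log_nonneg hY
    exact mul_le_mul h4 (pow_le_pow_left₀ (by linarith) (by linarith) w) (by positivity)
      (by positivity)
  obtain ⟨h4, h5, h6, h7, -⟩ := hF R0 hR0
  have h8 : Zm ≤ 2 * Real.exp (100 * ℓ) ^ w := by
    refine h6.trans (mul_le_mul_of_nonneg_left ?_ (by norm_num))
    unfold pd
    rw [Nat.cast_prod, ← h4, ← Finset.prod_const]
    exact Finset.prod_le_prod (fun _ _ => Nat.cast_nonneg _)
      fun p hp => h7 p (Finset.mem_filter.1 hp).1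
  refine h2.trans (le_trans ?_ (num_w hL hLl hZt hZm hX h8))
  exact mul_le_mul_of_nonneg_right h3 (by positivity)

/-- RO1 -/
theorem pf_RO1 (hROJ : T_ROJ) (hTUP : T_TUP) : T_RO1 := by
  classical
  intro η hη
  obtain ⟨K, ρ, X₀, hK, hρ, hX₀, hJ⟩ := hROJ (η / 2) (by positivity)
  refine ⟨max K 300000, min ρ 1, max X₀ (Real.exp (max 16 (32 / η ^ 2))),
    hK.trans (le_max_left _ _), lt_min hρ one_pos, hX₀.trans (le_max_left _ _), ?_⟩
  intro X ℓ Zt Zm q e Bd S F hX hℓ1 hℓ2 hq hqX hBd hBd1 he hS hSc hZt hZm hZtX hZmX hF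
  have hXe : Real.exp (max 16 (32 / η ^ 2)) ≤ X := (le_max_right _ _).trans hX
  have hX0 : 0 < X := (Real.exp_pos _).trans_le hXe
  obtain ⟨L, hLX⟩ : ∃ L, L = Real.log X := ⟨_, rfl⟩
  rw [← hLX] at hℓ1 hℓ2 hSc
  have hLm : max 16 (32 / η ^ 2) ≤ L := by
    rw [hLX]
    exact (Real.le_log_iff_exp_le hX0).2 hXe
  have hL : 16 ≤ L := (le_max_left _ _).trans hLm
  have hL0 : 0 < L := by linarith
  have hll : 1 ≤ Real.log L := by
    rw [Real.le_log_iff_exp_le hL0]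
    have := Real.exp_one_lt_d9
    linarith
  have hKℓ : K * Real.log L ≤ ℓ :=
    (mul_le_mul_of_nonneg_right (le_max_left _ _) (by linarith)).trans hℓ1
  have h3ℓ : 300000 * Real.log L ≤ ℓ :=
    (mul_le_mul_of_nonneg_right (le_max_right _ _) (by linarith)).trans hℓ1
  have hℓ0 : 0 ≤ ℓ := by linarith
  have hLl : L ^ 3 ≤ Real.exp (ℓ / 100000) := by
    calc L ^ 3 = Real.exp (Real.log L) ^ 3 := by rw [Real.exp_log hL0]
      _ = Real.exp (3 * Real.log L) := by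
        rw [← Real.exp_nat_mul]
        norm_num
      _ ≤ _ := Real.exp_le_exp.2 (by linarith)
  obtain ⟨E, hE⟩ : ∃ E, E = Real.exp (ℓ / 10000) := ⟨_, rfl⟩
  have hLE : L ^ 3 ≤ E := hLl.trans (by
    rw [hE]
    exact Real.exp_le_exp.2 (by linarith))
  have hE0 : 0 < E := by rw [hE]; exact Real.exp_pos _
  have hEE : Real.exp (ℓ / 5000) = E * E := by
    rw [hE, ← Real.exp_add]
    congr 1
    ring
  rw [← hE] at hF
  have hNE : E ≤ (⌈E⌉₊ : ℝ) := Nat.le_ceil E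
  have hNE1 : (⌈E⌉₊ : ℝ) ≤ E + 1 := (Nat.ceil_lt_add_one hE0.le).le
  have hN0 : 0 < ⌈E⌉₊ := Nat.ceil_pos.2 hE0
  -- the number of members is at most log X
  have hcardL : ∀ R ∈ F, (R.card : ℝ) ≤ L := by
    intro R hR
    have h1 := (hF R hR).2.2.1
    rw [← hLX] at h1
    have h2 : (R.card : ℝ) * 1 ≤ R.card * Real.log L :=
      mul_le_mul_of_nonneg_left hll (Nat.cast_nonneg _)
    have h3 : min ρ 1 * L ≤ 1 * L := mul_le_mul_of_nonneg_right (min_le_right _ _) hL0.le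
    linarith
  have hmain : ∀ w : ℕ, (((F.filter fun R => (R.filter fun p : ℕ => ¬ (p : ℝ) ≤ E).card = w).card : ℕ)
      : ℝ) ≤ 2 * X ^ (η / 2) * Zt ^ (3 / 20 : ℝ) * Zm ^ (1 - 6 / 10000000 : ℝ) := by
    intro w
    refine bound_w (X := X) (w := w) hTUP hL hLX hE hNE hN0 hLl hZt hZm hZmX (by positivity)
      (fun R hR => ?_) fun t => ?_
    · obtain ⟨hR1, hR2⟩ := Finset.mem_filter.1 hR
      obtain ⟨-, h1, -, -, h2, h3, -⟩ := hF R hR1
      refine ⟨hR2, h2, h3, fun p hp => (h1 p hp).2.2.2.2, fun p hp => ?_⟩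
      have h4 := (Finset.mem_filter.1 hp).2
      exact Nat.ceil_le.2 (not_le.1 h4).le
    · rcases ((F.filter fun R => (R.filter fun p : ℕ => ¬ (p : ℝ) ≤ E).card = w).filter fun R =>
        tu ⌈E⌉₊ w (R.filter fun p : ℕ => ¬ (p : ℝ) ≤ E) = t).eq_empty_or_nonempty with h0 | ⟨R0, hR0⟩
      · rw [h0, Finset.card_empty, Nat.cast_zero]
        positivity
      have hwL : (w : ℝ) ≤ L := by
        obtain ⟨h1, -⟩ := Finset.mem_filter.1 hR0
        obtain ⟨h2, h3⟩ := Finset.mem_filter.1 h1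
        rw [← h3]
        refine le_trans ?_ (hcardL R0 h2)
        exact_mod_cast Finset.card_le_card (Finset.filter_subset _ _)
      have hPc : ((Pt X E ⌈E⌉₊ w q S t).card : ℝ) ≤ ⌈E⌉₊ + 1 + w * ⌈E⌉₊ := by
        exact_mod_cast card_Pt hN0 hNE
      have h5 := hJ X ℓ (Real.log Zt + w * (ℓ / 5000 + 1)) q e Bd S (Pt X E ⌈E⌉₊ w q S t)
        ((F.filter fun R => (R.filter fun p : ℕ => ¬ (p : ℝ) ≤ E).card = w).filter fun R =>
          tu ⌈E⌉₊ w (R.filter fun p : ℕ => ¬ (p : ℝ) ≤ E) = t) ((le_max_left _ _).trans hX)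
        (by rw [← hLX]; exact hKℓ) (by rw [← hLX]; exact hℓ2) hq hqX hBd hBd1 he ?_ ?_ ?_
        (by rw [← hLX]; exact hSc) ?_ ?_
      · exact h5
      · rw [Finset.disjoint_left]
        intro p hp hp'
        unfold Pt at hp'
        exact (Finset.mem_filter.1 hp').2.2.2.1 hp
      · intro p hp
        rcases Finset.mem_union.1 hp with hp | hp
        · exact hS p hp
        · unfold Pt at hp
          obtain ⟨h6, h7, h8, -⟩ := Finset.mem_filter.1 hp
          refine ⟨h7, h8, ?_⟩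
          exact (Nat.le_floor_iff hX0.le).1 (Finset.mem_Icc.1 h6).2
      · rw [hEE]
        have h6 : ((S ∪ Pt X E ⌈E⌉₊ w q S t).card : ℝ) ≤
            (S.card : ℝ) + (Pt X E ⌈E⌉₊ w q S t).card := by
          exact_mod_cast Finset.card_union_le _ _
        exact h6.trans (num_P hL hLE hNE1 (Nat.cast_nonneg _) hwL hSc hPc)
      · have h6 : 0 ≤ Real.log Zt := Real.log_nonneg hZt
        positivity
      · intro R hR
        obtain ⟨hR1, hR2⟩ := Finset.mem_filter.1 hR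
        obtain ⟨hR3, hR4⟩ := Finset.mem_filter.1 hR1
        obtain ⟨h1, h2, h3, h4, -, -, h5⟩ := hF R hR3
        refine ⟨fun p hp => ?_, fun p hp => (h2 p hp).2.2.2.1, ?_, ?_, h5⟩
        · unfold Pt
          rw [Finset.mem_filter, Finset.mem_Icc]
          obtain ⟨h6, h7, h8, -⟩ := h2 p hp
          refine ⟨⟨h6.one_lt.le, (Nat.le_floor_iff hX0.le).2 h8⟩, h6, h7,
            fun h => Finset.disjoint_left.1 h1 h hp, ?_⟩
          by_cases h9 : (p : ℝ) ≤ E
          · exact Or.inl h9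
          · obtain ⟨i, hi⟩ := tu_mem (N := ⌈E⌉₊) hR4 (Finset.mem_filter.2 ⟨hp, h9⟩)
            exact Or.inr ⟨i, by rw [← hi, hR2]⟩
        · rw [← hLX] at h3 ⊢
          exact h3.trans (mul_le_mul_of_nonneg_right (min_le_left _ _) hL0.le)
        · refine sum_log_le hℓ0 (Rt := R.filter fun p : ℕ => (p : ℝ) ≤ E)
            (Rm := R.filter fun p : ℕ => ¬ (p : ℝ) ≤ E) (Finset.filter_union_filter_not_eq _ _).symm
            (Finset.disjoint_filter_filter_not _ _ _) (fun p hp => (h2 p hp).1.one_lt.le) h4 hR4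
  -- summation over w
  have hsum : F.card = ∑ w ∈ Finset.range (⌊L⌋₊ + 1),
      (F.filter fun R => (R.filter fun p : ℕ => ¬ (p : ℝ) ≤ E).card = w).card := by
    refine Finset.card_eq_sum_card_fiberwise fun R hR => ?_
    have hR' : R ∈ F := hR
    refine Finset.mem_coe.2 (Finset.mem_range.2 (Nat.lt_succ_of_le (Nat.le_floor ?_)))
    refine le_trans ?_ (hcardL R hR')
    exact_mod_cast Finset.card_le_card (Finset.filter_subset _ _)
  have hZt0 : 0 < Zt := by linarith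
  have hZm0 : 0 < Zm := by linarith
  calc (F.card : ℝ) ≤ ((⌊L⌋₊ + 1 : ℕ) : ℝ) *
        (2 * X ^ (η / 2) * Zt ^ (3 / 20 : ℝ) * Zm ^ (1 - 6 / 10000000 : ℝ)) := by
        rw [hsum, Nat.cast_sum]
        refine (Finset.sum_le_card_nsmul _ _ _ fun w _ => hmain w).trans_eq ?_
        rw [nsmul_eq_mul, Finset.card_range]
    _ ≤ (L + 1) * (2 * X ^ (η / 2) * Zt ^ (3 / 20 : ℝ) * Zm ^ (1 - 6 / 10000000 : ℝ)) := by
        refine mul_le_mul_of_nonneg_right ?_ (by positivity)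
        push_cast
        linarith [Nat.floor_le hL0.le]
    _ = ((L + 1) * 2) * X ^ (η / 2) * (Zt ^ (3 / 20 : ℝ) * Zm ^ (1 - 6 / 10000000 : ℝ)) := by
        ring
    _ ≤ X ^ (η / 2) * X ^ (η / 2) * (Zt ^ (1 / 4 : ℝ) * Zm ^ (1 - 1 / 10000000 : ℝ)) := by
        refine mul_le_mul ?_ ?_ (by positivity) (by positivity)
        · exact mul_le_mul_of_nonneg_right
            (num_L hη hX0 hLX (by linarith) ((le_max_right _ _).trans hLm)) (by positivity)
        · exact mul_le_mul (Real.rpow_le_rpow_of_exponent_le hZt (by norm_num))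
            (Real.rpow_le_rpow_of_exponent_le hZm (by norm_num)) (by positivity) (by positivity)
    _ = X ^ η * Zt ^ (1 / 4 : ℝ) * Zm ^ (1 - 1 / 10000000 : ℝ) := by
        rw [← Real.rpow_add hX0, add_halves]
        ring

end Pool.Agent.H75.AG
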