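import Pool.Agent.H67.AG.T1
import Pool.Agent.H67.AG.T6

/-!
# MP_c59857_nt (absolute gap): basic facts for the rows S5, S6 of the board `gap_modules`
-/

set_option autoImplicit false

open MeasureTheory ProbabilityTheory Filter Topology Finset
open scoped Nat ENNReal

namespace Pool.Agent.H75.AG

open Pool.Agent.H67.AG
open Pool.Agent.H24.T2 (Pset)

section basic

variable {d : Sw} (e : SwE d)

/-- the indicator of the selection of `b` -/
noncomputable def sel (b : Fin d.n) (ω : e.Ω) : ℝ := if e.s ω = b then 1 else 0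

theorem sel_meas (b : Fin d.n) : Measurable (sel e b) :=
  Measurable.ite (e.sm (measurableSet_singleton b)) measurable_const measurable_const

theorem sel_nn (b : Fin d.n) (ω : e.Ω) : 0 ≤ sel e b ω := by
  unfold sel; split_ifs <;> norm_num

theorem sel_le (b : Fin d.n) (ω : e.Ω) : sel e b ω ≤ 1 := by
  unfold sel; split_ifs <;> norm_num

theorem sel_abs (b : Fin d.n) (ω : e.Ω) : |sel e b ω| ≤ 1 := by
  rw [abs_of_nonneg (sel_nn e b ω)]; exact sel_le e b ω

theorem sum_sel (ω : e.Ω) : ∑ b, sel e b ω = 1 := by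
  unfold sel
  rw [Finset.sum_ite_eq, if_pos (Finset.mem_univ _)]

theorem iter_mp (n : ℕ) : MeasurePreserving (e.T^[n]) e.P e.P := e.mp.iterate n

theorem iter_meas (n : ℕ) : Measurable (e.T^[n]) := (iter_mp e n).measurable

theorem g_meas : Measurable e.g := e.fac.1.measurable

theorem yb_meas (b : Fin d.n) (i : Fin d.k) : Measurable (e.yb b i) :=
  ((d.hy b).1 i).comp (g_meas e)

theorem yb_val (b : Fin d.n) (i : Fin d.k) (ω : e.Ω) : e.yb b i ω = 1 ∨ e.yb b i ω = -1 :=
  (d.hy b).2 i (e.g ω)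

theorem yt_eq (t : ℕ) (i : Fin d.k) (ω : e.Ω) :
    e.yt t i ω = ∑ b, sel e b (e.T^[d.W * t] ω) * e.yb b i ω := by
  have h : ∀ b, sel e b (e.T^[d.W * t] ω) * e.yb b i ω =
      if e.s (e.T^[d.W * t] ω) = b then e.yb b i ω else 0 := by
    intro b
    unfold sel
    split_ifs <;> ring
  rw [Finset.sum_congr rfl fun b _ => h b, Finset.sum_ite_eq, if_pos (Finset.mem_univ _)]
  rfl

theorem yt_meas (t : ℕ) (i : Fin d.k) : Measurable (e.yt t i) := by
  have h : e.yt t i = fun ω => ∑ b, sel e b (e.T^[d.W * t] ω) * e.yb b i ω :=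
    funext fun ω => yt_eq e t i ω
  rw [h]
  exact Finset.measurable_fun_sum _ fun b _ =>
    ((sel_meas e b).comp (iter_meas e _)).mul (yb_meas e b i)

theorem yt_val (t : ℕ) (i : Fin d.k) (ω : e.Ω) : e.yt t i ω = 1 ∨ e.yt t i ω = -1 :=
  (d.hy _).2 i (e.g ω)

theorem ys_eq_yt : e.ys = e.yt 0 := by
  funext i ω
  simp only [SwE.ys, SwE.yt, Nat.mul_zero, Function.iterate_zero, id_eq]

theorem ys_meas (i : Fin d.k) : Measurable (e.ys i) := by
  rw [ys_eq_yt]; exact yt_meas e 0 i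

theorem ys_val (i : Fin d.k) (ω : e.Ω) : e.ys i ω = 1 ∨ e.ys i ω = -1 :=
  (d.hy _).2 i (e.g ω)

theorem ys_abs (i : Fin d.k) (ω : e.Ω) : |e.ys i ω| = 1 := by
  rcases ys_val e i ω with h | h <;> rw [h] <;> norm_num

theorem yb_abs (b : Fin d.n) (i : Fin d.k) (ω : e.Ω) : |e.yb b i ω| = 1 := by
  rcases yb_val e b i ω with h | h <;> rw [h] <;> norm_num

end basic

section mismatch

variable {Ω : Type} {k : ℕ}

theorem dl_eq (y y' : Fin k → Ω → ℝ) (i : Fin k) (ω : Ω) (h : y i ω = 1 ∨ y i ω = -1)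
    (h' : y' i ω = 1 ∨ y' i ω = -1) : dl y y' i ω = (1 - y i ω * y' i ω) / 2 := by
  unfold dl
  rcases h with h | h <;> rcases h' with h' | h' <;> rw [h, h'] <;> norm_num

theorem dl_nn (y y' : Fin k → Ω → ℝ) (i : Fin k) (ω : Ω) : 0 ≤ dl y y' i ω := by
  unfold dl; split_ifs <;> norm_num

theorem dl_le (y y' : Fin k → Ω → ℝ) (i : Fin k) (ω : Ω) : dl y y' i ω ≤ 1 := by
  unfold dl; split_ifs <;> norm_num

theorem dl_meas [MeasurableSpace Ω] (y y' : Fin k → Ω → ℝ) (hy : Tup y) (hy' : Tup y')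
    (i : Fin k) : Measurable (dl y y' i) := by
  have h : dl y y' i = fun ω => (1 - y i ω * y' i ω) / 2 :=
    funext fun ω => dl_eq y y' i ω (hy.2 i ω) (hy'.2 i ω)
  rw [h]
  exact (measurable_const.sub ((hy.1 i).mul (hy'.1 i))).div_const _

end mismatch

section tuples

variable {d : Sw} (e : SwE d)

theorem tup_ys : Tup e.ys := ⟨ys_meas e, ys_val e⟩

theorem tup_yt (t : ℕ) : Tup (e.yt t) := ⟨yt_meas e t, yt_val e t⟩

theorem tup_yb (b : Fin d.n) : Tup (e.yb b) := ⟨yb_meas e b, yb_val e b⟩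

end tuples

section bounded

variable {Ω : Type} [MeasurableSpace Ω] {P : Measure Ω} [IsProbabilityMeasure P]

theorem integrable_bdd {f : Ω → ℝ} (hf : Measurable f) (C : ℝ) (h : ∀ ω, |f ω| ≤ C) :
    Integrable f P :=
  Integrable.of_bound hf.aestronglyMeasurable C (Eventually.of_forall h)

end bounded

end Pool.Agent.H75.AG
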