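import Pool.Agent.H38.AG.Targets
import Pool.Agent.H93.RD.SNU

/-!
# Board allg_modules: ECM (the classes modulo S-units are small)
-/

set_option autoImplicit false

open Pool.Agent.H38.RB Pool.Agent.H38.PS Pool.Agent.H82.RD Pool.Agent.H38.AB Pool.Agent.H38.AG

namespace Pool.Agent.H75.AG

open Finset

/-- the number of the factorisations in `τ` factors -/
lemma fact_count (τ : ℕ) : ∀ (m N : ℕ), 1 ≤ N → N.primeFactorsList.length = m →
    ∀ T : Finset (Fin τ → ℕ), (∀ t ∈ T, ∏ i, t i = N) → T.card ≤ τ ^ m := by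
  classical
  intro m
  induction m with
  | zero =>
    intro N hN hm T hT
    have h1 : N = 1 := by
      rcases (Nat.primeFactorsList_eq_nil _).1 (List.length_eq_zero_iff.1 hm) with h | h
      · omega
      · exact h
    rw [pow_zero, Finset.card_le_one]
    intro t ht t' ht'
    have h2 : ∀ t ∈ T, ∀ i, t i = 1 := by
      intro t ht i
      have h3 := hT t ht
      rw [h1] at h3
      exact Nat.dvd_one.1 (h3 ▸ Finset.dvd_prod_of_mem t (Finset.mem_univ i))
    funext i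
    rw [h2 t ht i, h2 t' ht' i]
  | succ m ih =>
    intro N hN hm T hT
    have hN1 : N ≠ 1 := by
      rintro rfl
      simp at hm
    have hp := Nat.minFac_prime hN1
    obtain ⟨N', hN'⟩ := Nat.minFac_dvd N
    have hN'0 : N' ≠ 0 := by
      rintro rfl
      omega
    have hm' : N'.primeFactorsList.length = m := by
      have h1 := (Nat.perm_primeFactorsList_mul hp.ne_zero hN'0).length_eq
      rw [← hN', hm, Nat.primeFactorsList_prime hp, List.length_append] at h1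
      simp at h1
      omega
    have h1 : T ⊆ Finset.univ.biUnion fun i => T.filter fun t => N.minFac ∣ t i := by
      intro t ht
      have h2 : N.minFac ∣ ∏ i, t i := by
        rw [hT t ht]
        exact Nat.minFac_dvd N
      obtain ⟨i, -, hi⟩ := (hp.prime.dvd_finsetProd_iff _).1 h2
      exact Finset.mem_biUnion.2 ⟨i, Finset.mem_univ _, Finset.mem_filter.2 ⟨ht, hi⟩⟩
    have h2 : ∀ i : Fin τ, (T.filter fun t => N.minFac ∣ t i).card ≤ τ ^ m := by
      intro i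
      have h3 : Set.InjOn (fun t : Fin τ → ℕ => Function.update t i (t i / N.minFac))
          (T.filter fun t => N.minFac ∣ t i : Finset (Fin τ → ℕ)) := by
        intro t ht t' ht' h
        have h4 := (Finset.mem_filter.1 (Finset.mem_coe.1 ht)).2
        have h5 := (Finset.mem_filter.1 (Finset.mem_coe.1 ht')).2
        funext j
        by_cases hj : j = i
        · subst hj
          have h6 := congrFun h j
          simp only [Function.update_self] at h6
          rw [← Nat.mul_div_cancel' h4, h6, Nat.mul_div_cancel' h5]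
        · have h6 := congrFun h j
          simp only [Function.update_of_ne hj] at h6
          exact h6
      rw [← Finset.card_image_of_injOn h3]
      refine ih N' (by omega) hm' _ fun t' ht' => ?_
      obtain ⟨t, ht, rfl⟩ := Finset.mem_image.1 ht'
      obtain ⟨h4, h5⟩ := Finset.mem_filter.1 ht
      rw [Finset.prod_update_of_mem (Finset.mem_univ i)]
      have h6 := hT t h4
      rw [← Finset.mul_prod_erase Finset.univ t (Finset.mem_univ i)] at h6
      have h7 : N.minFac * (t i / N.minFac * ∏ x ∈ Finset.univ \ {i}, t x) = N.minFac * N' := by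
        rw [← mul_assoc, Nat.mul_div_cancel' h5, Finset.sdiff_singleton_eq_erase, h6, ← hN']
      exact Nat.eq_of_mul_eq_mul_left hp.pos h7
    calc T.card ≤ (Finset.univ.biUnion fun i => T.filter fun t => N.minFac ∣ t i).card :=
          Finset.card_le_card h1
      _ ≤ ∑ i, (T.filter fun t => N.minFac ∣ t i).card := Finset.card_biUnion_le
      _ ≤ ∑ _i : Fin τ, τ ^ m := Finset.sum_le_sum fun i _ => h2 i
      _ = τ ^ (m + 1) := by
          rw [Finset.sum_const, Finset.card_univ, Fintype.card_fin, smul_eq_mul, pow_succ']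

/-- the number of the prime factors of a product -/
lemma length_prod {ι : Type} (s : Finset ι) (t : ι → ℕ) (n : ℕ)
    (h : ∀ i ∈ s, 1 ≤ t i ∧ (t i).primeFactorsList.length = n) :
    1 ≤ ∏ i ∈ s, t i ∧ (∏ i ∈ s, t i).primeFactorsList.length = s.card * n := by
  classical
  induction s using Finset.induction_on with
  | empty => simp
  | insert a s ha ih =>
    obtain ⟨h1, h2⟩ := ih fun i hi => h i (Finset.mem_insert_of_mem hi)
    obtain ⟨h3, h4⟩ := h a (Finset.mem_insert_self _ _)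
    rw [Finset.prod_insert ha, Finset.card_insert_of_notMem ha]
    refine ⟨Nat.mul_pos h3 h1, ?_⟩
    rw [(Nat.perm_primeFactorsList_mul (by omega) (by omega)).length_eq, List.length_append, h2, h4]
    ring

lemma card_pow_le {τ n Mx q : ℕ} (hq : 1 ≤ q) (P : Finset ℕ)
    (hP : ∀ p ∈ P, 1 ≤ p ∧ p.primeFactorsList.length = n)
    (hc : ∀ c, (((Fintype.piFinset fun _ : Fin τ => P).image fun t => ∏ i, t i).filter
      fun n => n % q = c).card ≤ Mx) : P.card ^ τ ≤ q * Mx * τ ^ (τ * n) := by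
  classical
  have h1 : (Fintype.piFinset fun _ : Fin τ => P).card = P.card ^ τ := by
    rw [Fintype.card_piFinset, Finset.prod_const, Finset.card_univ, Fintype.card_fin]
  obtain ⟨N0, hN0⟩ : ∃ N0, N0 = ((Fintype.piFinset fun _ : Fin τ => P).image fun t => ∏ i, t i) :=
    ⟨_, rfl⟩
  rw [← hN0] at hc
  have h2 : P.card ^ τ = ∑ N ∈ N0, ((Fintype.piFinset fun _ : Fin τ => P).filter
      fun t => ∏ i, t i = N).card := by
    rw [← h1]
    refine Finset.card_eq_sum_card_fiberwise fun t ht => ?_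
    rw [hN0]
    exact Finset.mem_coe.2 (Finset.mem_image_of_mem _ (Finset.mem_coe.1 ht))
  have h3 : N0.card ≤ q * Mx := by
    have h4 : N0.card = ∑ c ∈ Finset.range q, (N0.filter fun n => n % q = c).card := by
      refine Finset.card_eq_sum_card_fiberwise fun t ht => ?_
      exact Finset.mem_coe.2 (Finset.mem_range.2 (Nat.mod_lt _ (by omega)))
    rw [h4]
    refine (Finset.sum_le_card_nsmul _ _ Mx fun c _ => hc c).trans_eq ?_
    rw [Finset.card_range, smul_eq_mul]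
  rw [h2]
  refine (Finset.sum_le_card_nsmul _ _ (τ ^ (τ * n)) fun N hN => ?_).trans ?_
  · rw [hN0] at hN
    obtain ⟨t, ht, rfl⟩ := Finset.mem_image.1 hN
    have h5 := length_prod Finset.univ t n fun i _ => hP _ (Fintype.mem_piFinset.1 ht i)
    rw [Finset.card_univ, Fintype.card_fin] at h5
    exact fact_count τ (τ * n) _ h5.1 h5.2 _ fun t' ht' => (Finset.mem_filter.1 ht').2
  · rw [smul_eq_mul]
    exact Nat.mul_le_mul_right _ h3

lemma nc_mono {q A B D D' H u : ℕ} (hD : D ≤ D') (h : NC q A B D' H u) : NC q A B D H u := by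
  unfold NC at h ⊢
  refine lt_of_le_of_lt ?_ h
  gcongr

/-- the bound for one class -/
lemma class_le (hEDH : T_EDH) (hMTH : T_MTH) {q e τ c v Bd PB Lp : ℕ} (hq : q.Prime)
    {S P : Finset ℕ} (hτ : 1 ≤ τ) (hv : 1 ≤ v) (hvB : v ≤ Bd) (hS : ∀ l ∈ S, l.Coprime q)
    (hP : ∀ p ∈ P, 1 ≤ p ∧ p ≤ PB ∧ p.Coprime q)
    (hcl : ∀ p ∈ P, ∀ p' ∈ P, ∃ α γ : ℕ → ℕ, (∀ l, α l ≤ Bd ∧ γ l ≤ Bd) ∧
      p ^ v * ∏ l ∈ S, l ^ α l ≡ p' ^ v * ∏ l ∈ S, l ^ γ l [MOD q ^ e])
    (hPB : PB < 2 ^ Lp) (hBd : Bd ≤ PB ^ 30) (hLp : 300 * (τ + 1) ≤ Lp) (hr : S.card + 1 ≤ Lp)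
    (he : ∀ κ, q ^ κ ≤ q * v → 2 * (Lp ^ 4 * Lp ^ 4 + κ) ≤ e - 3) :
    (((Fintype.piFinset fun _ : Fin τ => P).image fun t => ∏ i, t i).filter
      fun n => n % qh q = c).card ≤ (Lp ^ 5) ^ (S.card + 1) := by
  have : Fact q.Prime := ⟨hq⟩
  have hLp1 : 1 ≤ Lp := by omega
  obtain ⟨κ, W, den, num, ζ, hκ, hM⟩ := hEDH q e τ c v Bd PB S P hτ hv hvB hS hP hcl
  have he' := he κ hκ
  have hL8 : Lp * Lp ≤ Lp ^ 4 * Lp ^ 4 := by
    rw [← pow_add, ← pow_two]
    exact Nat.pow_le_pow_right hLp1 (by norm_num)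
  have h1 := hMTH q S.card ℕ _ W (fun n => n) den num ζ κ (e - 3) (1 + qh q) (τ * Bd) (PB ^ τ)
    (Lp ^ 4) (Lp ^ 4) hM (Nat.one_le_pow _ _ hLp1) ?_ he' ?_ ?_
  · refine h1.trans ?_
    calc (S.card + 1) * Lp ^ 4 * ((S.card + 1) * Lp ^ 4) ^ S.card
        = ((S.card + 1) * Lp ^ 4) ^ (S.card + 1) := (pow_succ' _ _).symm
      _ ≤ (Lp * Lp ^ 4) ^ (S.card + 1) := Nat.pow_le_pow_left (Nat.mul_le_mul_right _ hr) _
      _ = (Lp ^ 5) ^ (S.card + 1) := by
        congr 1
        exact (pow_succ' _ _).symm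
  · calc 2 ≤ Lp := by omega
      _ = Lp ^ 1 := (pow_one _).symm
      _ ≤ Lp ^ 4 := Nat.pow_le_pow_right hLp1 (by norm_num)
  · have h2 : Lp * τ ≤ Lp * Lp := Nat.mul_le_mul_left _ (by omega)
    calc PB ^ τ < (2 ^ Lp) ^ τ := Nat.pow_lt_pow_left hPB (by omega)
      _ = 2 ^ (Lp * τ) := by rw [← pow_mul]
      _ ≤ 2 ^ (e - 3 - κ) := Nat.pow_le_pow_right (by norm_num) (by omega)
      _ ≤ q ^ (e - 3 - κ) := Nat.pow_le_pow_left hq.two_le _
  · intro u hu1 hu2
    refine nc_mono ?_ (Pool.Agent.H93.RD.NC_of (Bd := Bd) hq.two_le hPB hBd hLp hu1 (by omega))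
    exact Nat.mul_le_mul_left _ (Nat.le_self_pow (by omega) _)

/-- the numerical estimate -/
lemma num_ecm {γ L c n r Lp τ ρ : ℝ} (hτ : 4 / γ ≤ τ) (hγ : 0 < γ) (hτ1 : 1 ≤ τ)
    (hρ1 : ρ ≤ 1 / 25) (hρ2 : ρ * τ ≤ γ / 4) (hL : 1 ≤ L) (hll : 1 ≤ Real.log L)
    (hll2 : 25 * Real.log L ≤ γ / 8 * L) (hL16 : 16 / γ ≤ L) (hn : n ≤ ρ * L)
    (hr : r * Real.log L ≤ ρ * L) (hr0 : 0 ≤ r) (hLp : Lp ≤ 21 * L) (hLp0 : 0 < Lp)
    (h : τ * c ≤ τ * n * Real.log τ + (2 + L) + 5 * (r + 1) * Real.log Lp) : c ≤ γ * L := by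
  have h1 : Real.log Lp ≤ 5 * Real.log L := by
    have h2 : Real.log Lp ≤ Real.log 21 + Real.log L := by
      rw [← Real.log_mul (by norm_num) (by linarith)]
      exact Real.log_le_log hLp0 hLp
    have h3 : Real.log 21 ≤ 4 := by
      rw [Real.log_le_iff_le_exp (by norm_num)]
      have h4 : (2.7 : ℝ) ≤ Real.exp 1 := by
        have := Real.exp_one_gt_d9
        linarith
      have h5 : Real.exp 4 = Real.exp 1 ^ 4 := by
        rw [← Real.exp_nat_mul]
        norm_num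
      rw [h5]
      calc (21 : ℝ) ≤ 2.7 ^ 4 := by norm_num
        _ ≤ Real.exp 1 ^ 4 := pow_le_pow_left₀ (by norm_num) h4 4
    linarith
  have h2 : 5 * (r + 1) * Real.log Lp ≤ 25 * (ρ * L) + 25 * Real.log L := by
    have h3 : 5 * (r + 1) * Real.log Lp ≤ 5 * (r + 1) * (5 * Real.log L) :=
      mul_le_mul_of_nonneg_left h1 (by linarith)
    have h4 : 5 * (r + 1) * (5 * Real.log L) = 25 * (r * Real.log L) + 25 * Real.log L := by ring
    linarith
  have h3 : ρ * L ≤ 1 / 25 * L := mul_le_mul_of_nonneg_right hρ1 (by linarith)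
  have hτ0 : 0 < τ := by linarith
  have hγτ : 4 ≤ γ * τ := by
    rw [div_le_iff₀ hγ] at hτ
    linarith
  have hγL : 16 ≤ γ * L := by
    rw [div_le_iff₀ hγ] at hL16
    linarith
  have h4 : Real.log τ ≤ τ := (Real.log_le_sub_one_of_pos hτ0).trans (by linarith)
  have hlτ : 0 ≤ Real.log τ := Real.log_nonneg hτ1
  have h5 : n * Real.log τ ≤ γ / 4 * L := by
    calc n * Real.log τ ≤ (ρ * L) * Real.log τ := mul_le_mul_of_nonneg_right hn hlτ
      _ ≤ (ρ * L) * τ := by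
          by_cases hρ : 0 ≤ ρ
          · exact mul_le_mul_of_nonneg_left h4 (by positivity)
          · exfalso
            have h6 : r * Real.log L ≤ 0 := hr.trans
              (mul_nonpos_of_nonpos_of_nonneg (not_le.1 hρ).le (by linarith))
            have h7 : 0 ≤ r * Real.log L := mul_nonneg hr0 (by linarith)
            have h8 : ρ * L < 0 := mul_neg_of_neg_of_pos (not_le.1 hρ) (by linarith)
            linarith
      _ = (ρ * τ) * L := by ring
      _ ≤ γ / 4 * L := mul_le_mul_of_nonneg_right hρ2 (by linarith)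
  have h6 : τ * c ≤ τ * (γ / 4 * L) + (2 + L) + (L + γ / 8 * L) := by
    have h7 : τ * n * Real.log τ ≤ τ * (γ / 4 * L) := by
      rw [mul_assoc]
      exact mul_le_mul_of_nonneg_left h5 hτ0.le
    linarith
  have h7 : 2 * L ≤ τ * (γ / 2 * L) := by
    have := mul_le_mul_of_nonneg_right hγτ (by linarith : (0 : ℝ) ≤ L)
    nlinarith
  have h8 : 2 + γ / 8 * L ≤ τ * (γ / 4 * L) := by
    have h9 : 1 * (γ / 4 * L) ≤ τ * (γ / 4 * L) := mul_le_mul_of_nonneg_right hτ1 (by linarith)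
    linarith
  have h9 : τ * c ≤ τ * (γ * L) := by
    have : τ * (γ * L) = τ * (γ / 4 * L) + τ * (γ / 2 * L) + τ * (γ / 4 * L) := by ring
    linarith
  exact le_of_mul_le_mul_left h9 hτ0

/-- ECM -/
theorem pf_ECM (hEDH : T_EDH) (hMTH : T_MTH) : T_ECM := by
  intro γ hγ
  obtain ⟨τ, hτ⟩ : ∃ τ : ℕ, τ = ⌈4 / γ⌉₊ + 1 := ⟨_, rfl⟩
  have hτγ : 4 / γ ≤ τ := by
    rw [hτ]
    push_cast
    linarith [Nat.le_ceil (4 / γ)]
  have hτ1 : 1 ≤ τ := by omega
  have hτ1' : (1 : ℝ) ≤ τ := by exact_mod_cast hτ1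
  obtain ⟨L₁, hL₁⟩ : ∃ L₁ : ℝ, ∀ L ≥ L₁, 25 * Real.log L ≤ γ / 8 * L := by
    have h1 := Real.isLittleO_log_id_atTop.bound (show (0 : ℝ) < γ / 200 by positivity)
    obtain ⟨L₁, h2⟩ := Filter.eventually_atTop.1 h1
    refine ⟨max L₁ 1, fun L hL => ?_⟩
    have h3 := h2 L ((le_max_left _ _).trans hL)
    have h4 : (1 : ℝ) ≤ L := (le_max_right _ _).trans hL
    rw [Real.norm_eq_abs, Real.norm_eq_abs, id, abs_of_nonneg (by linarith : (0 : ℝ) ≤ L)] at h3
    have h5 := (le_abs_self _).trans h3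
    linarith
  refine ⟨10, min (1 / 25) (γ / (4 * τ)), Real.exp (max (max 1000000 (15 * ((τ : ℝ) + 1)))
    (max L₁ (16 / γ))), by norm_num, by positivity, ?_, ?_⟩
  · have h1 : (1000000 : ℝ) ≤ max (max 1000000 (15 * ((τ : ℝ) + 1))) (max L₁ (16 / γ)) :=
      (le_max_left _ _).trans (le_max_left _ _)
    have h2 := Real.add_one_le_exp (max (max 1000000 (15 * ((τ : ℝ) + 1))) (max L₁ (16 / γ)))
    linarith
  intro X q e v Bd n S P hX hq hqX he hv hvB hBd hS hSc hn hP hcl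
  have hX0 : 0 < X := (Real.exp_pos _).trans_le hX
  obtain ⟨L, hLX⟩ : ∃ L, L = Real.log X := ⟨_, rfl⟩
  rw [← hLX] at he hSc hn
  have hLm : max (max 1000000 (15 * ((τ : ℝ) + 1))) (max L₁ (16 / γ)) ≤ L := by
    rw [hLX]
    exact (Real.le_log_iff_exp_le hX0).2 hX
  have hL : 1000000 ≤ L := (le_max_left _ _).trans ((le_max_left _ _).trans hLm)
  have hLτ : 15 * ((τ : ℝ) + 1) ≤ L := (le_max_right _ _).trans ((le_max_left _ _).trans hLm)
  have hLL₁ : L₁ ≤ L := (le_max_left _ _).trans ((le_max_right _ _).trans hLm)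
  have hL16 : 16 / γ ≤ L := (le_max_right _ _).trans ((le_max_right _ _).trans hLm)
  have hL0 : 0 < L := by linarith
  have hXL : X = Real.exp L := by rw [hLX, Real.exp_log hX0]
  have hX2 : 2 ≤ X := by
    rw [hXL]
    have := Real.add_one_le_exp L
    linarith
  have hll : 1 ≤ Real.log L := by
    rw [Real.le_log_iff_exp_le hL0]
    have := Real.exp_one_lt_d9
    linarith
  have hρ1 : min (1 / 25) (γ / (4 * τ)) ≤ 1 / 25 := min_le_left _ _
  have hρ2 : min (1 / 25) (γ / (4 * τ)) * τ ≤ γ / 4 := by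
    calc min (1 / 25) (γ / (4 * τ)) * τ ≤ γ / (4 * τ) * τ :=
          mul_le_mul_of_nonneg_right (min_le_right _ _) (by linarith)
      _ = γ / 4 := by
          field_simp
  -- the parameters
  obtain ⟨Lp, hLp⟩ : ∃ Lp : ℕ, Lp = ⌊20 * L⌋₊ + 1 := ⟨_, rfl⟩
  have hLp1 : 20 * L < Lp := by
    rw [hLp]
    push_cast
    exact Nat.lt_floor_add_one _
  have hLp2 : (Lp : ℝ) ≤ 21 * L := by
    rw [hLp]
    push_cast
    have := Nat.floor_le (show (0 : ℝ) ≤ 20 * L by linarith)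
    linarith
  have hr : (S.card : ℝ) ≤ L := by
    have h1 : (S.card : ℝ) * 1 ≤ S.card * Real.log L :=
      mul_le_mul_of_nonneg_left hll (Nat.cast_nonneg _)
    have h2 : min (1 / 25) (γ / (4 * τ)) * L ≤ 1 / 25 * L :=
      mul_le_mul_of_nonneg_right hρ1 hL0.le
    linarith
  have hrLp : S.card + 1 ≤ Lp := by
    have : (S.card : ℝ) + 1 ≤ Lp := by linarith
    exact_mod_cast this
  have hLpτ : 300 * (τ + 1) ≤ Lp := by
    have : 300 * ((τ : ℝ) + 1) ≤ Lp := by linarith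
    exact_mod_cast this
  have hlog2 : (0.6 : ℝ) ≤ Real.log 2 := by
    have := Real.log_two_gt_d9
    linarith
  have hPB : ⌊X ^ 10⌋₊ < 2 ^ Lp := by
    rw [Nat.floor_lt (by positivity)]
    push_cast
    rw [hXL, ← Real.exp_nat_mul]
    have h1 : (2 : ℝ) ^ Lp = Real.exp (Lp * Real.log 2) := by
      rw [Real.exp_nat_mul, Real.exp_log (by norm_num)]
    rw [h1]
    refine Real.exp_lt_exp.2 ?_
    push_cast
    have h2 : (20 * L) * 0.6 < Lp * Real.log 2 := by
      calc (20 * L) * 0.6 < (Lp : ℝ) * 0.6 := by linarith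
        _ ≤ Lp * Real.log 2 := mul_le_mul_of_nonneg_left hlog2 (Nat.cast_nonneg _)
    linarith
  have hBd' : Bd ≤ ⌊X ^ 10⌋₊ ^ 30 := by
    have h1 : X ^ 9 ≤ (⌊X ^ 10⌋₊ : ℝ) := by
      have h2 := Nat.lt_floor_add_one (X ^ 10)
      have h3 : (1 : ℝ) ≤ X ^ 9 := one_le_pow₀ (by linarith)
      have h4 : X ^ 10 = X * X ^ 9 := by ring
      have h5 : 2 * X ^ 9 ≤ X * X ^ 9 := mul_le_mul_of_nonneg_right hX2 (by positivity)
      linarith
    have h2 : (Bd : ℝ) ≤ (⌊X ^ 10⌋₊ : ℝ) ^ 30 := by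
      calc (Bd : ℝ) ≤ X ^ 70 := hBd
        _ ≤ X ^ 270 := pow_le_pow_right₀ (by linarith) (by norm_num)
        _ = (X ^ 9) ^ 30 := by rw [← pow_mul]
        _ ≤ _ := pow_le_pow_left₀ (by positivity) h1 30
    exact_mod_cast h2
  have hPB' : ∀ p ∈ P, 1 ≤ p ∧ p ≤ ⌊X ^ 10⌋₊ ∧ p.Coprime q := fun p hp =>
    ⟨(hP p hp).1, Nat.le_floor (hP p hp).2.1, (hP p hp).2.2.1⟩
  have hκ : ∀ κ, q ^ κ ≤ q * v → 2 * (Lp ^ 4 * Lp ^ 4 + κ) ≤ e - 3 := by
    intro κ hκ
    have h1 : (κ : ℝ) ≤ 120 * L := by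
      have h2 : (2 : ℝ) ^ κ ≤ X ^ 71 := by
        calc (2 : ℝ) ^ κ ≤ (q : ℝ) ^ κ :=
              pow_le_pow_left₀ (by norm_num) (by exact_mod_cast hq.two_le) _
          _ ≤ (q : ℝ) * v := by exact_mod_cast hκ
          _ ≤ X * X ^ 70 := mul_le_mul hqX ((by exact_mod_cast hvB : (v : ℝ) ≤ Bd).trans hBd)
              (Nat.cast_nonneg _) hX0.le
          _ = X ^ 71 := by ring
      have h3 := Real.log_le_log (by positivity) h2
      rw [Real.log_pow, Real.log_pow, ← hLX] at h3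
      push_cast at h3
      have h4 : (κ : ℝ) * 0.6 ≤ κ * Real.log 2 :=
        mul_le_mul_of_nonneg_left hlog2 (Nat.cast_nonneg _)
      linarith
    have h2 : L ^ 10 ≤ (e : ℝ) := by
      have : L ^ (10 : ℝ) = L ^ 10 := by
        rw [show (10 : ℝ) = ((10 : ℕ) : ℝ) by norm_num, Real.rpow_natCast]
      rw [this] at he
      exact he
    have h3 : (Lp : ℝ) ^ 8 ≤ (21 * L) ^ 8 := pow_le_pow_left₀ (Nat.cast_nonneg _) hLp2 8
    have h4 : 2 * ((Lp : ℝ) ^ 4 * (Lp : ℝ) ^ 4 + κ) + 3 ≤ e := by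
      have h5 : (Lp : ℝ) ^ 4 * (Lp : ℝ) ^ 4 = (Lp : ℝ) ^ 8 := by ring
      have h6 : (21 * L) ^ 8 = 37822859361 * L ^ 8 := by
        rw [mul_pow]
        norm_num
      have h7 : L ≤ L ^ 8 := by
        calc L = L ^ 1 := (pow_one L).symm
          _ ≤ L ^ 8 := pow_le_pow_right₀ (by linarith) (by norm_num)
      have h8 : 1000000 * 1000000 * L ^ 8 ≤ L * L * L ^ 8 :=
        mul_le_mul_of_nonneg_right (mul_le_mul hL hL (by norm_num) hL0.le) (by positivity)
      have h9 : L * L * L ^ 8 = L ^ 10 := by ring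
      rw [h5]
      rw [h6] at h3
      rw [h9] at h8
      clear hX hLm h5 h6 h9 hLp hXL
      obtain ⟨y, hy⟩ : ∃ y, y = L ^ 8 := ⟨_, rfl⟩
      obtain ⟨y', hy'⟩ : ∃ y', y' = L ^ 10 := ⟨_, rfl⟩
      rw [← hy] at h3 h7 h8
      rw [← hy'] at h2 h8
      clear hy hy'
      have h10 : 2 * (37822859361 * y + 120 * y) + 3 ≤ 1000000 * 1000000 * y := by
        linarith
      linarith
    have h5 : 2 * (Lp ^ 4 * Lp ^ 4 + κ) + 3 ≤ e := by exact_mod_cast h4
    omega
  have hclass : ∀ c, (((Fintype.piFinset fun _ : Fin τ => P).image fun t => ∏ i, t i).filter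
      fun n => n % qh q = c).card ≤ (Lp ^ 5) ^ (S.card + 1) := fun c =>
    class_le hEDH hMTH hq hτ1 hv hvB hS hPB' hcl hPB hBd' hLpτ hrLp hκ
  have hqh : 1 ≤ qh q ∧ qh q ≤ 4 * q := by
    unfold qh
    have := hq.two_le
    split_ifs <;> omega
  have hmain := card_pow_le hqh.1 P (fun p hp => ⟨(hP p hp).1, (hP p hp).2.2.2⟩) hclass
  -- logarithms
  rcases Nat.eq_zero_or_pos P.card with h0 | h0
  · rw [h0, Nat.cast_zero]
    positivity
  have hPc : (0 : ℝ) < P.card := by exact_mod_cast h0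
  have hLp0 : (0 : ℝ) < Lp := by linarith
  have hmain' : (P.card : ℝ) ^ τ ≤ (4 * X) * ((Lp : ℝ) ^ 5) ^ (S.card + 1) * (τ : ℝ) ^ (τ * n) := by
    calc (P.card : ℝ) ^ τ ≤ (qh q : ℝ) * ((Lp : ℝ) ^ 5) ^ (S.card + 1) * (τ : ℝ) ^ (τ * n) := by
          exact_mod_cast hmain
      _ ≤ _ := by
          refine mul_le_mul_of_nonneg_right (mul_le_mul_of_nonneg_right ?_ (by positivity))
            (by positivity)
          have h1 : (qh q : ℝ) ≤ 4 * q := by exact_mod_cast hqh.2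
          linarith
  have hlog := Real.log_le_log (pow_pos hPc τ) hmain'
  have hτ0 : (0 : ℝ) < τ := by linarith
  rw [Real.log_pow, Real.log_mul (by positivity) (by positivity),
    Real.log_mul (by positivity) (by positivity), Real.log_mul (by norm_num) hX0.ne',
    Real.log_pow, Real.log_pow, Real.log_pow, ← hLX] at hlog
  have hlog4 : Real.log 4 ≤ 2 := by
    have h1 : (4 : ℝ) = 2 ^ 2 := by norm_num
    rw [h1, Real.log_pow]
    have := Real.log_two_lt_d9
    push_cast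
    linarith
  have hfin := num_ecm (c := Real.log P.card) (r := S.card) (n := n) hτγ hγ hτ1' hρ1 hρ2
    (by linarith) hll (hL₁ L hLL₁) hL16 hn hSc (Nat.cast_nonneg _) hLp2 hLp0 (by
      push_cast at hlog
      nlinarith)
  rw [Real.rpow_def_of_pos hX0, ← hLX, mul_comm L γ]
  calc (P.card : ℝ) = Real.exp (Real.log P.card) := (Real.exp_log hPc).symm
    _ ≤ _ := Real.exp_le_exp.2 hfin

end Pool.Agent.H75.AG
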